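import Pool.Agent.Y16.BR.Tame

/-!
# Cubic surfaces with a general polynomial coefficient

The surfaces `t b(t) (x₀³ + t x₁³) + x₂³ + x₃³ = 0`, where `b ≡ t - 1` modulo a valuation ring of
the field of constants and the degree of `b` is divisible by three.
-/

set_option autoImplicit false

open scoped TensorProduct

namespace Pool.Agent.Y16.BR

open Pool.Agent.Helper346.Bra

/-- the polynomial `b(t)` in the variable `X 0` -/
noncomputable def ev {R : Type*} [CommRing R] (b : Polynomial R) : MvPolynomial (Fin 3) R :=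
  Polynomial.eval₂RingHom (MvPolynomial.C : R →+* MvPolynomial (Fin 3) R) (MvPolynomial.X 0) b

open MvPolynomial in
/-- `t b(t) (x³ + t y³) + 1` -/
noncomputable def Qb {R : Type*} [CommRing R] (b : Polynomial R) : MvPolynomial (Fin 3) R :=
  X 0 * ev b * (X 1 ^ 3 + X 0 * X 2 ^ 3) + 1

open MvPolynomial in
/-- the cubic form `t b(t) x₀³ + t² b(t) x₁³ + x₂³ + x₃³` over `C(t)` -/
noncomputable def cubic (C : Type) [Field C] (b : Polynomial C) :
    MvPolynomial (Fin 4) (RatFunc C) :=
  MvPolynomial.C (RatFunc.X * algebraMap (Polynomial C) (RatFunc C) b) * X 0 ^ 3 +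
    MvPolynomial.C (RatFunc.X ^ 2 * algebraMap (Polynomial C) (RatFunc C) b) * X 1 ^ 3 +
    X 2 ^ 3 + X 3 ^ 3

theorem ev_map {R S : Type*} [CommRing R] [CommRing S] (f : R →+* S) (b : Polynomial R) :
    MvPolynomial.map f (ev b) = ev (b.map f) := by
  unfold ev
  rw [Polynomial.coe_eval₂RingHom, Polynomial.coe_eval₂RingHom, Polynomial.hom_eval₂,
    Polynomial.eval₂_map, MvPolynomial.map_X]
  congr 1
  ext a
  simp

theorem ev_hom {R L : Type*} [CommRing R] [CommRing L] (g : MvPolynomial (Fin 3) R →+* L)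
    (b : Polynomial R) : g (ev b) = b.eval₂ (g.comp MvPolynomial.C) (g (MvPolynomial.X 0)) := by
  unfold ev
  rw [Polynomial.coe_eval₂RingHom, Polynomial.hom_eval₂]

theorem gen_eq_b (C : Type) [Field C] (b : Polynomial C) : MvPolynomial.aeval
    (![MvPolynomial.X 0, MvPolynomial.X 1, MvPolynomial.X 2, 1] :
      Fin 4 → MvPolynomial (Fin 3) (RatFunc C)) (cubic C b) =
      MvPolynomial.X 2 ^ 3 + qh C (Qb b) := by
  have h : qh C (ev b) = MvPolynomial.C (algebraMap (Polynomial C) (RatFunc C) b) := qh_ev C b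
  simp only [cubic, Qb, map_add, map_mul, map_pow, map_one, MvPolynomial.aeval_X,
        MvPolynomial.algHom_C, MvPolynomial.algebraMap_eq, qh_X0, qh_X1, qh_X2, h]
  simp
  ring

theorem noncube_b (k : Type*) [Field k] (b : Polynomial k) (hb : b ≠ 0) (hd : 3 ∣ b.natDegree) :
    ∀ c, c ^ 3 ≠ -Qb b := by
  intro c hc
  have h1 := congrArg (MvPolynomial.aeval (R := k)
      (![Polynomial.C Polynomial.X, Polynomial.X, 0] : Fin 3 → Polynomial (Polynomial k))) hc
  have hev : MvPolynomial.aeval (R := k)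
      (![Polynomial.C Polynomial.X, Polynomial.X, 0] : Fin 3 → Polynomial (Polynomial k)) (ev b) =
      Polynomial.C b := by
    have : ((MvPolynomial.aeval (R := k) (![Polynomial.C Polynomial.X, Polynomial.X, 0] :
        Fin 3 → Polynomial (Polynomial k))).toRingHom.comp
        (Polynomial.eval₂RingHom (MvPolynomial.C : k →+* MvPolynomial (Fin 3) k)
          (MvPolynomial.X 0))) = (Polynomial.C : Polynomial k →+* Polynomial (Polynomial k)) := by
      apply Polynomial.ringHom_ext
      · intro a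
        simp
      · simp
    exact congrArg (fun f => f b) this
  simp only [Qb, map_pow, map_neg, map_add, map_mul, map_one, MvPolynomial.aeval_X, hev] at h1
  simp only [Matrix.cons_val_zero, Matrix.cons_val_one, Matrix.cons_val] at h1
  have h2 := cube_coeff (B := Polynomial k) _ (-(Polynomial.X * b)) (-1)
      (h1.trans (by
        simp only [map_neg, map_mul, map_one]
        ring))
  have h3 := congrArg Polynomial.natDegree h2
  rw [Polynomial.natDegree_pow, Polynomial.natDegree_neg, Polynomial.natDegree_X_mul hb] at h3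
  omega

theorem cubic_smooth (C : Type) [Field C] [CharZero C] (b : Polynomial C) (hb : b ≠ 0) :
    IsSmoothCubic (RatFunc C) (cubic C b) := by
  have hX : (RatFunc.X : RatFunc C) ≠ 0 := RatFunc.X_ne_zero
  have hb' : algebraMap (Polynomial C) (RatFunc C) b ≠ 0 := RatFunc.algebraMap_ne_zero hb
  have hal : RatFunc.X * algebraMap (Polynomial C) (RatFunc C) b ≠ 0 := mul_ne_zero hX hb'
  have hal2 : RatFunc.X ^ 2 * algebraMap (Polynomial C) (RatFunc C) b ≠ 0 :=
    mul_ne_zero (pow_ne_zero _ hX) hb'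
  refine ⟨?_, ?_⟩
  · unfold cubic
    refine ((MvPolynomial.IsHomogeneous.add ?_ ?_).add ?_).add ?_
    · exact (MvPolynomial.isHomogeneous_C_mul_X_pow _ _ _)
    · exact (MvPolynomial.isHomogeneous_C_mul_X_pow _ _ _)
    · exact MvPolynomial.isHomogeneous_X_pow _ _
    · exact MvPolynomial.isHomogeneous_X_pow _ _
  · intro Ω _ _ x hx _
    by_contra hcon
    have hcon' : ∀ i, MvPolynomial.aeval x (MvPolynomial.pderiv i (cubic C b)) = 0 := by
      intro i
      by_contra hi
      exact hcon ⟨i, hi⟩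
    apply hx
    have h3 : (3 : Ω) ≠ 0 := by
      have : (3 : Ω) = algebraMap (RatFunc C) Ω 3 := by rw [map_ofNat]
      rw [this, Ne, FaithfulSMul.algebraMap_eq_zero_iff]
      have : (3 : RatFunc C) = algebraMap (Polynomial C) (RatFunc C) 3 := by rw [map_ofNat]
      rw [this, FaithfulSMul.algebraMap_eq_zero_iff]
      intro h
      have h4 := congrArg (Polynomial.eval 0) h
      simp at h4
    have e0 := hcon' 0
    have e1 := hcon' 1
    have e2 := hcon' 2
    have e3 := hcon' 3
    unfold cubic at e0 e1 e2 e3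
    generalize RatFunc.X * algebraMap (Polynomial C) (RatFunc C) b = a0 at hal e0 e1 e2 e3
    generalize RatFunc.X ^ 2 * algebraMap (Polynomial C) (RatFunc C) b = a1 at hal2 e0 e1 e2 e3
    simp only [map_add, Derivation.leibniz, Derivation.leibniz_pow, MvPolynomial.pderiv_C,
      MvPolynomial.pderiv_X, smul_zero, add_zero, smul_eq_mul, nsmul_eq_mul, map_mul, map_pow,
      MvPolynomial.aeval_X, MvPolynomial.aeval_C, Pi.single_apply, Nat.cast_ofNat] at e0 e1 e2 e3
    simp [h3, hal, hal2] at e0 e1 e2 e3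
    funext i
    fin_cases i
    · exact e0
    · exact e1
    · exact e2
    · exact e3

theorem aniso_Qb (C : Type) [Field C] (V : ValuationSubring C)
    (h3 : (3 : IsLocalRing.ResidueField V) ≠ 0) (ω : C)
    (hω : IsPrimitiveRoot ω 3) (b : Polynomial V)
    (hb : b.map (IsLocalRing.residue V) = Polynomial.X - 1) :
    Aniso (CR (Qb (b.map (algebraMap V C)))) (cc _ (MvPolynomial.X 0))
      (zz _ + cc _ (MvPolynomial.C ω)) (zz _ + cc _ (MvPolynomial.C (ω ^ 2))) := by
  have hω1 : ω ^ 3 = 1 := hω.pow_eq_one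
  have hω2 : ω ^ 2 + ω + 1 = 0 := by
    have h1 : ω ≠ 1 := hω.ne_one (by norm_num)
    have : (ω - 1) * (ω ^ 2 + ω + 1) = 0 := by linear_combination hω1
    exact (mul_eq_zero.mp this).resolve_left (sub_ne_zero.mpr h1)
  have hωV : ω ∈ V := by
    rcases V.mem_or_inv_mem ω with h | h
    · exact h
    · have : ω = ω⁻¹ ^ 2 := by
        have h0 : ω ≠ 0 := hω.ne_zero (by norm_num)
        field_simp
        linear_combination hω1
      rw [this]
      exact V.pow_mem h 2
  let w : V := ⟨ω, hωV⟩
  have hw : w ^ 2 + w + 1 = 0 := Subtype.ext hω2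
  have hw' : IsLocalRing.residue V w ^ 2 + IsLocalRing.residue V w + 1 = 0 := by
    rw [← map_pow, ← map_add, ← map_one (IsLocalRing.residue V), ← map_add, hw, map_zero]
  have key := aniso_specialize V (Qb b) (MvPolynomial.X 0) w (w ^ 2) (by
    have e1 : MvPolynomial.map (IsLocalRing.residue V) (Qb b) =
        Q2 (IsLocalRing.ResidueField V) := by
      unfold Qb Q2
      simp only [map_mul, map_add, map_pow, map_one, MvPolynomial.map_X, ev_map, hb]
      have e : ev (Polynomial.X - 1 : Polynomial (IsLocalRing.ResidueField V)) =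
          MvPolynomial.X 0 - 1 := by
        unfold ev
        simp
      rw [e]
    rw [e1, MvPolynomial.map_X, map_pow]
    exact aniso_Q2 (IsLocalRing.ResidueField V) _ hw' h3)
  have e2 : MvPolynomial.map (algebraMap V C) (Qb b) = Qb (b.map (algebraMap V C)) := by
    unfold Qb
    simp only [map_mul, map_add, map_pow, map_one, MvPolynomial.map_X, ev_map]
  rw [e2, MvPolynomial.map_X] at key
  exact key

theorem brauer_class_b (C : Type) [Field C] [IsAlgClosed C] [CharZero C] (ω : C)
    (hω : IsPrimitiveRoot ω 3) (b : Polynomial C) (hb0 : b.eval 0 ≠ 0) (hbd : 3 ∣ b.natDegree)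
    (L : Type) [Field L] (j : CR (Qb b) →+* L)
    (φ : affRing (RatFunc C) (cubic C b) →+* L) (hφ : Function.Injective φ)
    (hφt : φ (Ideal.Quotient.mk _ (MvPolynomial.C RatFunc.X)) = j (cc _ (MvPolynomial.X 0)))
    (hφc : ∀ c : C, φ (algebraMap C _ c) = j (cc _ (MvPolynomial.C c)))
    (hφx : φ (Ideal.Quotient.mk _ (MvPolynomial.X 0)) = j (cc _ (MvPolynomial.X 1)))
    (hφy : φ (Ideal.Quotient.mk _ (MvPolynomial.X 1)) = j (cc _ (MvPolynomial.X 2)))
    (hφz : φ (Ideal.Quotient.mk _ (MvPolynomial.X 2)) = j (zz _))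
    (hj : Function.Injective j)
    (hAL : Aniso L (j (cc _ (MvPolynomial.X 0))) (j (zz _ + cc _ (MvPolynomial.C ω)))
      (j (zz _ + cc _ (MvPolynomial.C (ω ^ 2))))) (K : Type) [Field K]
    [Algebra (affRing (RatFunc C) (cubic C b)) K] [Algebra C K]
    [IsFractionRing (affRing (RatFunc C) (cubic C b)) K]
    [IsScalarTower C (affRing (RatFunc C) (cubic C b)) K] :
    HasUnramifiedOrderThree C K := by
  classical
  let r : affRing (RatFunc C) (cubic C b) →+* K := algebraMap _ K
  let Φ : K →+* L := IsFractionRing.lift hφ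
  have hΦ : ∀ a, Φ (r a) = φ a := fun a => IsFractionRing.lift_algebraMap hφ a
  set t : K := r (Ideal.Quotient.mk _ (MvPolynomial.C RatFunc.X)) with ht
  set x : K := r (Ideal.Quotient.mk _ (MvPolynomial.X 0)) with hx
  set y : K := r (Ideal.Quotient.mk _ (MvPolynomial.X 1)) with hy
  set z : K := r (Ideal.Quotient.mk _ (MvPolynomial.X 2)) with hz
  let iK : C →+* K := algebraMap C K
  have hiK : ∀ c, iK c = r (algebraMap C _ c) := fun c => IsScalarTower.algebraMap_apply C _ K c
  have hΦt : Φ t = j (cc _ (MvPolynomial.X 0)) := by rw [ht, hΦ, hφt]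
  have hΦx : Φ x = j (cc _ (MvPolynomial.X 1)) := by rw [hx, hΦ, hφx]
  have hΦy : Φ y = j (cc _ (MvPolynomial.X 2)) := by rw [hy, hΦ, hφy]
  have hΦz : Φ z = j (zz _) := by rw [hz, hΦ, hφz]
  have hΦc : ∀ c, Φ (iK c) = j (cc _ (MvPolynomial.C c)) := fun c => by rw [hiK, hΦ, hφc]
  have hcc : Function.Injective (cc (Qb b)) := cc_inj_ti _
  have hAK : Aniso K t (z + iK ω) (z + iK (ω ^ 2)) := by
    apply aniso_inj Φ Φ.injective
    rw [map_add, map_add, hΦt, hΦz, hΦc, hΦc, ← map_add, ← map_add]
    exact hAL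
  have ht0 : ∀ c, t ≠ iK c := by
    intro c hc
    have := congrArg Φ hc
    rw [hΦt, hΦc] at this
    have h2 := hcc (hj this)
    have h3 := congrArg (MvPolynomial.coeff (Finsupp.single (0 : Fin 3) 1)) h2
    have hne : ¬ ((0 : Fin 3 →₀ ℕ) = Finsupp.single (0 : Fin 3) 1) := by
      intro h
      have := DFunLike.congr_fun h (0 : Fin 3)
      simp at this
    rw [MvPolynomial.coeff_C, if_neg hne] at h3
    rw [MvPolynomial.coeff_X', if_pos rfl] at h3
    exact one_ne_zero h3
  have hx0 : x ≠ 0 := by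
    intro hc
    have := congrArg Φ hc
    rw [hΦx, map_zero, map_eq_zero_iff j hj, map_eq_zero_iff _ hcc] at this
    exact MvPolynomial.X_ne_zero _ this
  have hy0 : y ≠ 0 := by
    intro hc
    have := congrArg Φ hc
    rw [hΦy, map_zero, map_eq_zero_iff j hj, map_eq_zero_iff _ hcc] at this
    exact MvPolynomial.X_ne_zero _ this
  have hm1 : z + iK ω ≠ 0 := by
    intro h
    have := (hAK 1 0 0 0 (by rw [h]; ring)).1
    exact one_ne_zero this
  have hm2 : z + iK (ω ^ 2) ≠ 0 := by
    intro h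
    have := (hAK 0 1 0 0 (by rw [h]; ring)).2.1
    exact one_ne_zero this
  have hxy : x ^ 3 + t * y ^ 3 ≠ 0 := by
    intro h
    have := (hAK 0 x y 0 (by linear_combination (-(z + iK (ω ^ 2))) * h)).2.1
    exact hx0 this
  have ht00 : t ≠ 0 := by simpa using ht0 0
  have hS : z ^ 3 + 1 = -(t * b.eval₂ iK t * (x ^ 3 + t * y ^ 3)) := by
    apply Φ.injective
    simp only [map_mul, map_add, map_pow, map_one, map_neg]
    rw [hΦx, hΦy, hΦz]
    have h := zz_rel (Qb b)
    have h2 : zz (Qb b) ^ 3 = - cc _ (Qb b) := by linear_combination h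
    have h3 := congrArg j h2
    rw [map_pow, map_neg] at h3
    rw [h3]
    have h6 : Φ (b.eval₂ iK t) = (j.comp (cc (Qb b))) (ev b) := by
      rw [ev_hom, Polynomial.hom_eval₂, RingHom.comp_apply j, hΦt]
      congr 1
      ext c
      exact hΦc c
    rw [h6, hΦt]
    have h4 : ∀ g : MvPolynomial (Fin 3) C →+* L, g (Qb b) =
        g (MvPolynomial.X 0) * g (ev b) * (g (MvPolynomial.X 1) ^ 3 +
          g (MvPolynomial.X 0) * g (MvPolynomial.X 2) ^ 3) + 1 := by
      intro g
      unfold Qb
      simp only [map_mul, map_add, map_pow, map_one]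
    have h5 := h4 (j.comp (cc (Qb b)))
    simp only [RingHom.comp_apply] at h5 ⊢
    rw [h5]
    ring
  have hβ0 : b.eval₂ iK t ≠ 0 := by
    intro h0
    have hroots := hS
    rw [h0, mul_zero, zero_mul, neg_zero] at hroots
    have e : z ^ 3 = iK (-1) := by
      rw [map_neg, map_one]
      linear_combination hroots
    have e2 := congrArg Φ e
    rw [map_pow, hΦz, hΦc, ← map_pow] at e2
    have e3 := hj e2
    have h := zz_rel (Qb b)
    have h2 : zz (Qb b) ^ 3 = - cc _ (Qb b) := by linear_combination h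
    rw [h2, ← map_neg] at e3
    have e4 := hcc e3
    have hne : b ≠ 0 := by
      rintro rfl
      simp at hb0
    obtain ⟨c, hc⟩ := IsAlgClosed.exists_pow_nat_eq (-1 : C) (n := 3) (by norm_num)
    exact noncube_b C b hne hbd (MvPolynomial.C c) (by rw [e4, ← map_pow, hc])
  have hz0 : z + 1 ≠ 0 := by
    intro h
    have h1 : z = -1 := by linear_combination h
    rw [h1] at hS
    have : t * b.eval₂ iK t * (x ^ 3 + t * y ^ 3) = 0 := by
      linear_combination hS
    exact mul_ne_zero (mul_ne_zero ht00 hβ0) hxy this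
  set w : K := iK ω with hw
  have hwp : IsPrimitiveRoot w 3 := hω.map_of_injective iK.injective
  have h3K : (3 : K) ≠ 0 := by
    have : (3 : K) = iK 3 := (map_ofNat iK 3).symm
    rw [this, Ne, map_eq_zero]
    norm_num
  have hbb0 : (z + iK ω) / (z + iK (ω ^ 2)) ≠ 0 := div_ne_zero hm1 hm2
  obtain ⟨hc1, hc2, hc3, -⟩ := symb_csa 3 (by norm_num) w t ((z + iK ω) / (z + iK (ω ^ 2))) hwp
    (by exact_mod_cast h3K) ht00 hbb0
  refine ⟨Symb K 3 w t ((z + iK ω) / (z + iK (ω ^ 2))), inferInstance, inferInstance, hc1, hc2,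
    hc3, ?_, symb_triple w _ _ hwp h3K ht00 hbb0, ?_⟩
  · intro hsp
    obtain ⟨d, g0, g1, g2, hne, he⟩ := split_norm w _ _ hwp h3K ht00 hbb0 hsp
    apply hne
    apply hAK
    have h1 : (z + iK (ω ^ 2)) * ((z + iK ω) / (z + iK (ω ^ 2)) * d ^ 3) =
        (z + iK ω) * d ^ 3 := by
      field_simp
    rw [← h1, he]
  · intro R hR hcR
    obtain ⟨π, D, u, hπ, hu, hlc, hcc'⟩ := exists_dval R
    let iR : C →+* R := (algebraMap C K).codRestrict R.toSubring hcR
    have hiR : ∀ c, ((iR c : R) : K) = iK c := fun c => rfl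
    let ik : C →+* IsLocalRing.ResidueField R := (IsLocalRing.residue R).comp iR
    have hunit : ∀ c : C, c ≠ 0 → IsUnit (iR c) := fun c hc => (IsUnit.mk0 c hc).map iR
    have hc : ∀ c : C, c ≠ 0 → D.w (iK c) = 0 ∧ D.lc (iK c) = ik c := by
      intro c hc
      exact hcc' (iR c) (hunit c hc)
    obtain ⟨q1, q2, q3, q4⟩ := poly_factor D iK ik hc t ht0 b.natDegree b rfl hb0
    have htame := tame_gen D iK ik hc ω hω t x y z _ ht0 hx0 hy0 hz0 hm1 hm2 hxy q1 q2
      (fun hn => by
        rcases lt_or_gt_of_ne hn with h | h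
        · rw [q4 h]
          exact Dvd.dvd.mul_right (by exact_mod_cast hbd) _
        · rw [q3 h]
          exact dvd_zero 3) hS
    haveI : Fact (Nat.Prime 3) := ⟨Nat.prime_three⟩
    have hlu : IsUnit ((3 : ℕ) : R) := by
      have := hunit 3 (by norm_num)
      rw [map_ofNat] at this
      exact_mod_cast this
    have hζ : IsPrimitiveRoot (iR ω) 3 := hω.map_of_injective iR.injective
    exact unramified_of_tame R 3 (by norm_num) (iR ω) hζ hlu π hπ D u hu hlc t _ ht00 hbb0 htame

/-- The class of surfaces `b ≡ t - 1`. -/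
theorem main3 (C : Type) [Field C] [IsAlgClosed C] [CharZero C] (V : ValuationSubring C)
    (h3 : (3 : IsLocalRing.ResidueField V) ≠ 0) (b : Polynomial V)
    (hb : b.map (IsLocalRing.residue V) = Polynomial.X - 1) (hd : 3 ∣ b.natDegree) :
    IsSmoothCubic (RatFunc C) (cubic C (b.map (algebraMap V C))) ∧
      IsDomain (affRing (RatFunc C) (cubic C (b.map (algebraMap V C)))) ∧
      ∀ (K : Type) [Field K] [Algebra (affRing (RatFunc C) (cubic C (b.map (algebraMap V C)))) K]
        [Algebra C K] [IsFractionRing (affRing (RatFunc C) (cubic C (b.map (algebraMap V C)))) K]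
        [IsScalarTower C (affRing (RatFunc C) (cubic C (b.map (algebraMap V C)))) K],
        HasUnramifiedOrderThree C K := by
  obtain ⟨ω, hω⟩ : ∃ ω : C, IsPrimitiveRoot ω 3 :=
    (HasEnoughRootsOfUnity.exists_primitiveRoot C 3)
  have hinj : Function.Injective (algebraMap V C) := Subtype.val_injective
  set B : Polynomial C := b.map (algebraMap V C) with hB
  have hBd : B.natDegree = b.natDegree := Polynomial.natDegree_map_eq_of_injective hinj b
  have hB0 : B.eval 0 ≠ 0 := by
    intro h
    have h1 : B.eval 0 = algebraMap V C (b.eval 0) := by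
      have := Polynomial.eval_map_apply (f := algebraMap V C) (p := b) (x := 0)
      rwa [map_zero] at this
    rw [h1, map_eq_zero_iff _ hinj] at h
    have h2 : (b.map (IsLocalRing.residue V)).eval 0 = IsLocalRing.residue V (b.eval 0) := by
      have := Polynomial.eval_map_apply (f := IsLocalRing.residue V) (p := b) (x := 0)
      rwa [map_zero] at this
    rw [hb, h, map_zero] at h2
    simp at h2
  have hBne : B ≠ 0 := by
    intro h
    rw [h] at hB0
    simp at hB0
  have hQ := cr_domain (Qb B) (noncube_b C B hBne (hBd ▸ hd))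
  let L := FractionRing (CR (Qb B))
  let j : CR (Qb B) →+* L := algebraMap _ _
  have hj : Function.Injective j := IsFractionRing.injective _ _
  have hAQ := aniso_Qb C V h3 ω hω b hb
  have hAL : Aniso L (j (cc _ (MvPolynomial.X 0))) (j (zz _ + cc _ (MvPolynomial.C ω)))
      (j (zz _ + cc _ (MvPolynomial.C (ω ^ 2)))) := aniso_frac _ _ _ hAQ
  obtain ⟨φ, hφ, hφt, hφc', hφx, hφy, hφz⟩ := embed_gen C L (Qb B) j hj _ (gen_eq_b C B)
  have hφc : ∀ c : C, φ (algebraMap C _ c) = j (cc _ (MvPolynomial.C c)) := by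
    intro c
    rw [← hφc' c]
    rfl
  have hdom : IsDomain (affRing (RatFunc C) (cubic C B)) := hφ.isDomain φ
  refine ⟨cubic_smooth C B hBne, hdom, ?_⟩
  intro K _ _ _ _ _
  exact brauer_class_b C ω hω B hB0 (hBd ▸ hd) L j φ hφ hφt hφc hφx hφy hφz hj hAL K

end Pool.Agent.Y16.BR
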