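import Pool.Agent.Y16.BR.Tame5
import Pool.Agent.Y16.BR.Three

/-!
# Del Pezzo surfaces of degree one with a general polynomial coefficient

The surfaces `z⁵ w = r₂ b(t) g₁ - r₁ t g₂`, where `b ≡ t - 1` modulo a valuation ring of
the field of constants and the degree of `b` is divisible by five.
-/

set_option autoImplicit false

open scoped TensorProduct

namespace Pool.Agent.Y16.BR

open Pool.Agent.Helper346.Bra

open MvPolynomial in
/-- `r₂ b(t) g₁ - r₁ t g₂` with `t = X 0`, `x = X 1`, `y = X 2`, `g_i = gg r_i x y` -/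
noncomputable def Q5b {k : Type*} [CommRing k] (r1 r2 : k) (b : Polynomial k) :
    MvPolynomial (Fin 3) k :=
  C r2 * ev b * gg (C r1) (X 1) (X 2) - C r1 * X 0 * gg (C r2) (X 1) (X 2)

open MvPolynomial in
/-- the weighted sextic `z⁵ w - r₂ b(t) g₁ + r₁ t g₂` -/
noncomputable def sextic {k : Type} [Field k] (r1 r2 : k) (b : Polynomial k) :
    MvPolynomial (Fin 4) (RatFunc k) :=
  X 0 ^ 5 * X 1 -
    C (RatFunc.C r2 * algebraMap (Polynomial k) (RatFunc k) b) * gh (RatFunc.C r1) +
    C (RatFunc.C r1 * RatFunc.X) * gh (RatFunc.C r2)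

theorem gen_eq5 (C : Type) [Field C] (r1 r2 : C) (b : Polynomial C) : MvPolynomial.aeval
    (![MvPolynomial.X 0, 1, MvPolynomial.X 1, MvPolynomial.X 2] :
      Fin 4 → MvPolynomial (Fin 3) (RatFunc C)) (sextic r1 r2 b) =
      MvPolynomial.X 0 ^ 5 - qh_ui C (Q5b r1 r2 b) := by
  have h : qh_ui C (ev b) = MvPolynomial.C (algebraMap (Polynomial C) (RatFunc C) b) :=
    qh_ev_ui C b
  simp only [sextic, gh, gg, Q5b, map_add, map_mul, map_pow, map_sub, map_one,
        MvPolynomial.aeval_X, h,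
        MvPolynomial.algHom_C, MvPolynomial.algebraMap_eq, qh_X0_ui, qh_X1_ui, qh_X2_ui, qh_C_ui]
  simp
  ring

theorem nonfifth_b (k : Type*) [Field k] (r1 r2 : k) (h1 : r1 ^ 2 = 11 * r1 + 1)
    (h2 : r2 = 11 - r1) (b : Polynomial k) (hb : b.eval 0 ≠ 0) : ∀ c, c ^ 5 ≠ Q5b r1 r2 b := by
  have h12 : r1 * r2 = -1 := by rw [h2]; linear_combination -h1
  have hr2 : r2 ≠ 0 := by
    rintro rfl
    rw [mul_zero] at h12
    exact one_ne_zero (neg_eq_zero.1 h12.symm)
  intro c hc
  have h3 := congrArg (MvPolynomial.aeval (R := k)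
      (![0, Polynomial.X, 0] : Fin 3 → Polynomial k)) hc
  have hev : MvPolynomial.aeval (R := k) (![0, Polynomial.X, 0] : Fin 3 → Polynomial k) (ev b) =
      Polynomial.C (b.eval 0) := by
    have := ev_hom ((MvPolynomial.aeval (R := k)
      (![0, Polynomial.X, 0] : Fin 3 → Polynomial k)).toRingHom) b
    have e1 : (MvPolynomial.aeval (R := k)
      (![0, Polynomial.X, 0] : Fin 3 → Polynomial k)).toRingHom.comp MvPolynomial.C =
      (Polynomial.C : k →+* Polynomial k) := by
      ext a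
      simp
    have e2 : (MvPolynomial.aeval (R := k)
      (![0, Polynomial.X, 0] : Fin 3 → Polynomial k)).toRingHom (MvPolynomial.X 0) =
      Polynomial.C 0 := by
      simp
    rw [e1, e2, Polynomial.eval₂_at_apply] at this
    exact this
  simp only [Q5b, gg, map_pow, map_neg, map_add, map_mul, map_sub, map_one, hev,
      MvPolynomial.aeval_X, MvPolynomial.aeval_C] at h3
  simp only [Matrix.cons_val_zero, Matrix.cons_val_one, Matrix.cons_val,
      Polynomial.algebraMap_eq] at h3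
  have h4 : MvPolynomial.aeval (R := k) (![0, Polynomial.X, 0] : Fin 3 → Polynomial k) c ^ 5 =
      Polynomial.C (-(r2 * b.eval 0)) * Polynomial.X ^ 3 +
        Polynomial.C (r1 * r2 * b.eval 0) * Polynomial.X ^ 2 := by
    rw [h3]
    simp only [map_neg, map_mul]
    ring
  have h5 := congrArg Polynomial.natDegree h4
  rw [Polynomial.natDegree_pow] at h5
  have hne : -(r2 * b.eval 0) ≠ 0 := neg_ne_zero.2 (mul_ne_zero hr2 hb)
  have h6 : (Polynomial.C (-(r2 * b.eval 0)) * Polynomial.X ^ 3 +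
        Polynomial.C (r1 * r2 * b.eval 0) * Polynomial.X ^ 2 : Polynomial k).natDegree = 3 := by
    generalize -(r2 * b.eval 0) = a at hne
    generalize r1 * r2 * b.eval 0 = a'
    compute_degree!
  omega

theorem sextic_smooth (C : Type) [Field C] [CharZero C] (r1 r2 : C) (h1 : r1 ^ 2 = 11 * r1 + 1)
    (h2 : r2 = 11 - r1) (b : Polynomial C) (hb : b.eval 0 ≠ 0) :
    IsDelPezzoOne (RatFunc C) (sextic r1 r2 b) := by
  refine ⟨F5_wh _ _ _ _, ?_⟩
  intro Ω _ _ v hv hF
  by_contra hcon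
  push Not at hcon
  have hr1 : r1 ≠ 0 := by
    intro h; rw [h] at h1; norm_num at h1
  have hr12 : r1 * r2 = -1 := by rw [h2]; linear_combination - h1
  have hr2 : r2 ≠ 0 := by
    intro h; rw [h, mul_zero] at hr12; norm_num at hr12
  have hinj : Function.Injective (algebraMap (Polynomial C) (RatFunc C)) :=
    RatFunc.algebraMap_injective C
  obtain ⟨A, hAd⟩ : ∃ A : RatFunc C, A = RatFunc.C r1 * RatFunc.X := ⟨_, rfl⟩
  obtain ⟨B, hBd⟩ : ∃ B : RatFunc C,
      B = RatFunc.C r2 * algebraMap (Polynomial C) (RatFunc C) b := ⟨_, rfl⟩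
  have hBp : B = algebraMap (Polynomial C) (RatFunc C) (Polynomial.C r2 * b) := by
    rw [hBd]
    simp only [map_mul, RatFunc.algebraMap_C]
  have hAp : A = algebraMap (Polynomial C) (RatFunc C) (Polynomial.C r1 * Polynomial.X) := by
    rw [hAd]
    simp only [map_mul, RatFunc.algebraMap_C, RatFunc.algebraMap_X]
  have hne : ∀ p : Polynomial C, p.eval 0 ≠ 0 → algebraMap (Polynomial C) (RatFunc C) p ≠ 0 := by
    intro p hp h
    rw [← map_zero (algebraMap (Polynomial C) (RatFunc C))] at h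
    have := hinj h
    rw [this] at hp
    simp at hp
  have hA : A ≠ 0 := by
    rw [hAd]
    refine mul_ne_zero ?_ RatFunc.X_ne_zero
    rw [← RatFunc.algebraMap_C]
    intro h
    rw [← map_zero (algebraMap (Polynomial C) (RatFunc C))] at h
    have := hinj h
    rw [Polynomial.C_eq_zero] at this
    exact hr1 this
  have hB : B ≠ 0 := by
    rw [hBp]
    apply hne
    simp [hr2, hb]
  have hD : B - A ≠ 0 := by
    rw [hBp, hAp, ← map_sub]
    apply hne
    simp [hr2, hb]
  have hE : B * RatFunc.C r1 - A * RatFunc.C r2 ≠ 0 := by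
    rw [hBp, hAp, ← RatFunc.algebraMap_C, ← RatFunc.algebraMap_C, ← map_mul, ← map_mul, ← map_sub]
    apply hne
    simp [hr2, hr1, hb]
  haveI : CharZero (RatFunc C) := charZero_of_injective_algebraMap (R := C)
    (algebraMap C (RatFunc C)).injective
  haveI : CharZero Ω := charZero_of_injective_algebraMap (R := RatFunc C)
    (algebraMap (RatFunc C) Ω).injective
  obtain ⟨m, hm⟩ : ∃ m : RatFunc C →+* Ω, m = algebraMap (RatFunc C) Ω := ⟨_, rfl⟩
  have hmi : Function.Injective m := m.injective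
  have hm0 : ∀ a, a ≠ 0 → m a ≠ 0 := fun a ha h => ha (hmi (by rw [h, map_zero]))
  have h11 : m (RatFunc.C 11) = 11 := map_ofNat (m.comp RatFunc.C) 11
  have h5 := hcon 0
  have h6 := hcon 1
  have h7 := hcon 2
  have h8 := hcon 3
  unfold sextic at hF h5 h6 h7 h8
  rw [← hAd, ← hBd] at hF h5 h6 h7 h8
  have key := F5_core (m A) (m B) (m (RatFunc.C r1)) (m (RatFunc.C r2))
    (v 0) (v 1) (v 2) (v 3) ?_ ?_ (hm0 _ hA) (hm0 _ hB) ?_ ?_ ?_ ?_ ?_ ?_ ?_
  · apply hv
    funext i
    fin_cases i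
    · exact key.1
    · exact key.2.1
    · exact key.2.2.1
    · exact key.2.2.2
  · rw [← map_pow, ← map_pow, h1, map_add, map_mul, map_add, map_mul, h11, map_one, map_one]
  · rw [h2, map_sub, map_sub, h11]
  · rw [← map_sub]; exact hm0 _ hD
  · rw [← map_mul, ← map_mul, ← map_sub]; exact hm0 _ hE
  · simp [gh, ← hm] at hF
    linear_combination hF
  · simp [gh, ← hm, MvPolynomial.pderiv_X, Pi.single_apply, Derivation.leibniz, Derivation.leibniz_pow] at h5
    rcases h5 with h5 | h5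
    · rw [h5]; ring
    · rw [h5]; ring
  · simp [gh, ← hm, MvPolynomial.pderiv_X, Pi.single_apply, Derivation.leibniz, Derivation.leibniz_pow] at h6
    linear_combination h6
  · simp [gh, ← hm, MvPolynomial.pderiv_X, Pi.single_apply, Derivation.leibniz, Derivation.leibniz_pow] at h7
    linear_combination h7
  · simp [gh, ← hm, MvPolynomial.pderiv_X, Pi.single_apply, Derivation.leibniz, Derivation.leibniz_pow] at h8
    linear_combination h8

theorem aniso_Q5b (C : Type) [Field C] (V : ValuationSubring C)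
    (h5κ : (5 : IsLocalRing.ResidueField V) ≠ 0) (r1 r2 : C)
    (h1 : r1 ^ 2 = 11 * r1 + 1) (h2 : r2 = 11 - r1) (b : Polynomial V)
    (hb : b.map (IsLocalRing.residue V) = Polynomial.X - 1) :
    AnisoL 5 (CRl 5 (Q5b r1 r2 (b.map (algebraMap V C)))) (cl 5 _ (MvPolynomial.X 0))
      (cl 5 _ (gg (MvPolynomial.C r1) (MvPolynomial.X 1) (MvPolynomial.X 2))) := by
  have hr0 : r1 ≠ 0 := by
    intro h
    rw [h] at h1
    norm_num at h1
  have h11 : (11 : C) ∈ V := by
    have := natCast_mem V.toSubring 11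
    exact_mod_cast this
  have hr1V : r1 ∈ V := by
    rcases V.mem_or_inv_mem r1 with h | h
    · exact h
    · have : r1 = 11 + r1⁻¹ := by
        field_simp
        linear_combination h1
      rw [this]
      exact V.add_mem _ _ h11 h
  let w1 : V := ⟨r1, hr1V⟩
  let w2 : V := 11 - w1
  have hw1 : w1 ^ 2 = 11 * w1 + 1 := Subtype.ext (by
    change r1 ^ 2 = _
    rw [h1]
    rfl)
  have hw2 : (w2 : C) = r2 := by
    rw [h2]
    rfl
  have key := aniso_specializeL 5 V (Q5b w1 w2 b) (MvPolynomial.X 0)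
    (gg (MvPolynomial.C w1) (MvPolynomial.X 1) (MvPolynomial.X 2)) (by
    have e1 : MvPolynomial.map (IsLocalRing.residue V) (Q5b w1 w2 b) =
        Q52 (IsLocalRing.residue V w1) (IsLocalRing.residue V w2) := by
      unfold Q5b Q52
      simp only [map_mul, map_sub, MvPolynomial.map_X,
        MvPolynomial.map_C, gg_map, ev_map, hb]
      have e : ev (Polynomial.X - 1 : Polynomial (IsLocalRing.ResidueField V)) =
          MvPolynomial.X 0 - 1 := by
        unfold ev
        simp
      rw [e]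
    rw [e1, MvPolynomial.map_X, gg_map, MvPolynomial.map_X, MvPolynomial.map_X,
      MvPolynomial.map_C]
    refine aniso_Q52 (IsLocalRing.ResidueField V) _ _ ?_ ?_ h5κ
    · rw [← map_pow, hw1, map_add, map_mul, map_one, map_ofNat]
    · change IsLocalRing.residue V (11 - w1) = _
      rw [map_sub, map_ofNat])
  have e2 : MvPolynomial.map (algebraMap V C) (Q5b w1 w2 b) =
      Q5b r1 r2 (b.map (algebraMap V C)) := by
    unfold Q5b
    simp only [map_mul, map_sub, MvPolynomial.map_X,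
      MvPolynomial.map_C, gg_map, ev_map]
    rw [show algebraMap V C w2 = r2 from hw2]
    rfl
  rw [e2, MvPolynomial.map_X, gg_map, MvPolynomial.map_X, MvPolynomial.map_X,
      MvPolynomial.map_C] at key
  exact key

theorem Q5b_map {C L : Type*} [CommRing C] [CommRing L] (r1 r2 : C) (b : Polynomial C)
    (g : MvPolynomial (Fin 3) C →+* L) : g (Q5b r1 r2 b) =
      g (MvPolynomial.C r2) * g (ev b) *
        gg (g (MvPolynomial.C r1)) (g (MvPolynomial.X 1)) (g (MvPolynomial.X 2)) -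
      g (MvPolynomial.C r1) * g (MvPolynomial.X 0) *
        gg (g (MvPolynomial.C r2)) (g (MvPolynomial.X 1)) (g (MvPolynomial.X 2)) := by
  unfold Q5b
  simp only [map_mul, map_sub, gg_map]

theorem brauer_class5_b (C : Type) [Field C] [IsAlgClosed C] [CharZero C] (ζ r1 r2 : C)
    (hζ : IsPrimitiveRoot ζ 5) (hr1 : r1 ^ 2 = 11 * r1 + 1) (hr2 : r2 = 11 - r1)
    (b : Polynomial C) (hb0 : b.eval 0 ≠ 0) (m : ℕ) (hbd : b.natDegree = 5 * (m + 1))
    (L : Type) [Field L] (j : CRl 5 (Q5b r1 r2 b) →+* L)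
    (φ : affRing1 (RatFunc C) (sextic r1 r2 b) →+* L) (hφ : Function.Injective φ)
    (hφt : φ (Ideal.Quotient.mk _ (MvPolynomial.C RatFunc.X)) = j (cl 5 _ (MvPolynomial.X 0)))
    (hφc : ∀ c : C, φ (algebraMap C _ c) = j (cl 5 _ (MvPolynomial.C c)))
    (hφx : φ (Ideal.Quotient.mk _ (MvPolynomial.X 1)) = j (cl 5 _ (MvPolynomial.X 1)))
    (hφy : φ (Ideal.Quotient.mk _ (MvPolynomial.X 2)) = j (cl 5 _ (MvPolynomial.X 2)))
    (hφz : φ (Ideal.Quotient.mk _ (MvPolynomial.X 0)) = j (zl 5 _))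
    (hj : Function.Injective j)
    (hAL : AnisoL 5 L (j (cl 5 _ (MvPolynomial.X 0)))
      (j (cl 5 _ (gg (MvPolynomial.C r1) (MvPolynomial.X 1) (MvPolynomial.X 2)))))
    (K : Type) [Field K]
    [Algebra (affRing1 (RatFunc C) (sextic r1 r2 b)) K] [Algebra C K]
    [IsFractionRing (affRing1 (RatFunc C) (sextic r1 r2 b)) K]
    [IsScalarTower C (affRing1 (RatFunc C) (sextic r1 r2 b)) K] :
    HasUnramifiedOrderFive C K := by
  classical
  let r : affRing1 (RatFunc C) (sextic r1 r2 b) →+* K := algebraMap _ K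
  let Φ : K →+* L := IsFractionRing.lift hφ
  have hΦ : ∀ a, Φ (r a) = φ a := fun a => IsFractionRing.lift_algebraMap hφ a
  set t : K := r (Ideal.Quotient.mk _ (MvPolynomial.C RatFunc.X)) with ht
  set x : K := r (Ideal.Quotient.mk _ (MvPolynomial.X 1)) with hx
  set y : K := r (Ideal.Quotient.mk _ (MvPolynomial.X 2)) with hy
  set z : K := r (Ideal.Quotient.mk _ (MvPolynomial.X 0)) with hz
  let iK : C →+* K := algebraMap C K
  have hiK : ∀ c, iK c = r (algebraMap C _ c) := fun c => IsScalarTower.algebraMap_apply C _ K c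
  have hΦt : Φ t = j (cl 5 _ (MvPolynomial.X 0)) := by rw [ht, hΦ, hφt]
  have hΦx : Φ x = j (cl 5 _ (MvPolynomial.X 1)) := by rw [hx, hΦ, hφx]
  have hΦy : Φ y = j (cl 5 _ (MvPolynomial.X 2)) := by rw [hy, hΦ, hφy]
  have hΦz : Φ z = j (zl 5 _) := by rw [hz, hΦ, hφz]
  have hΦc : ∀ c, Φ (iK c) = j (cl 5 _ (MvPolynomial.C c)) := fun c => by rw [hiK, hΦ, hφc]
  have hcl : Function.Injective (cl 5 (Q5b r1 r2 b)) := by
    unfold cl
    apply AdjoinRoot.of.injective_of_degree_ne_zero
    rw [Polynomial.degree_X_pow_sub_C (by norm_num)]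
    norm_num
  have hΦgg : ∀ c : C, Φ (gg (iK c) x y) =
      j (cl 5 _ (gg (MvPolynomial.C c) (MvPolynomial.X 1) (MvPolynomial.X 2))) := by
    intro c
    rw [gg_map Φ, hΦx, hΦy, hΦc, gg_map (cl 5 (Q5b r1 r2 b)), gg_map j]
  have hAK : AnisoL 5 K t (gg (iK r1) x y) := by
    apply anisoL_inj 5 Φ Φ.injective
    rw [hΦt, hΦgg]
    exact hAL
  have ht0 : ∀ c, t ≠ iK c := by
    intro c hc
    have := congrArg Φ hc
    rw [hΦt, hΦc] at this
    have h2 := hcl (hj this)
    have h3 := congrArg (MvPolynomial.coeff (Finsupp.single (0 : Fin 3) 1)) h2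
    have hne : ¬ ((0 : Fin 3 →₀ ℕ) = Finsupp.single (0 : Fin 3) 1) := by
      intro h
      have := DFunLike.congr_fun h (0 : Fin 3)
      simp at this
    rw [MvPolynomial.coeff_C, if_neg hne] at h3
    rw [MvPolynomial.coeff_X', if_pos rfl] at h3
    exact one_ne_zero h3
  have hz0 : z ≠ 0 := by
    intro hc
    have := congrArg Φ hc
    rw [hΦz, map_zero, map_eq_zero_iff j hj] at this
    have h2 := zl_rel 5 (Q5b r1 r2 b)
    rw [this, zero_pow (by norm_num)] at h2
    have h3 := (map_eq_zero_iff _ hcl).mp h2.symm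
    exact nonfifth_b C r1 r2 hr1 hr2 b hb0 0 (by rw [h3, zero_pow (by norm_num)])
  have hf0 : ff x y ≠ 0 := by
    intro hc
    have := congrArg Φ hc
    rw [ff_map Φ, hΦx, hΦy, map_zero, ← ff_map j, map_eq_zero_iff j hj,
      ← ff_map (cl 5 (Q5b r1 r2 b)), map_eq_zero_iff _ hcl] at this
    have h2 := congrArg (MvPolynomial.eval (![0, 1, 0] : Fin 3 → C)) this
    rw [ff_map, map_zero, MvPolynomial.eval_X, MvPolynomial.eval_X] at h2
    simp [ff] at h2
  have hg0 : ∀ c : C, c ^ 2 = 11 * c + 1 → gg (iK c) x y ≠ 0 := by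
    intro c hcc hc
    have := congrArg Φ hc
    rw [hΦgg, map_zero, map_eq_zero_iff j hj, map_eq_zero_iff _ hcl] at this
    have h2 := congrArg (MvPolynomial.eval (![0, 1, 0] : Fin 3 → C)) this
    rw [gg_map, map_zero, MvPolynomial.eval_X, MvPolynomial.eval_X, MvPolynomial.eval_C] at h2
    simp [gg] at h2
    have h3 : c = 1 := by linear_combination h2
    rw [h3] at hcc
    norm_num at hcc
  have hg1 := hg0 r1 hr1
  have hg2 := hg0 r2 (by rw [hr2]; linear_combination hr1)
  have ht00 : t ≠ 0 := by simpa using ht0 0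
  have hS : z ^ 5 = iK r2 * b.eval₂ iK t * gg (iK r1) x y -
      iK r1 * t * gg (iK r2) x y := by
    apply Φ.injective
    rw [map_pow, hΦz, ← map_pow, zl_rel 5 (Q5b r1 r2 b)]
    have h5 := Q5b_map r1 r2 b (j.comp (cl 5 (Q5b r1 r2 b)))
    have h6 : Φ (b.eval₂ iK t) = (j.comp (cl 5 (Q5b r1 r2 b))) (ev b) := by
      rw [ev_hom, Polynomial.hom_eval₂, RingHom.comp_apply j, hΦt]
      congr 1
      ext c
      exact hΦc c
    simp only [RingHom.comp_apply] at h5 h6
    rw [h5]
    simp only [map_mul, map_sub, gg_map]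
    rw [hΦt, hΦx, hΦy, hΦc, hΦc, h6]
  set w : K := iK ζ with hw
  have hwp : IsPrimitiveRoot w 5 := hζ.map_of_injective iK.injective
  have h5K : (5 : K) ≠ 0 := by
    have : (5 : K) = iK 5 := (map_ofNat iK 5).symm
    rw [this, Ne, map_eq_zero]
    norm_num
  have h5K' : ((5 : ℕ) : K) ≠ 0 := by exact_mod_cast h5K
  have : Fact (Nat.Prime 5) := ⟨by norm_num⟩
  obtain ⟨hc1, hc2, hc3, -⟩ := symb_csa 5 (by norm_num) w t (gg (iK r1) x y) hwp h5K' ht00 hg1
  refine ⟨Symb K 5 w t (gg (iK r1) x y), inferInstance, inferInstance, hc1, hc2,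
    hc3, ?_, symb_quint w _ _ hwp h5K ht00 hg1, ?_⟩
  · intro hsp
    obtain ⟨d, g, hne, he⟩ := split_normL 5 (by norm_num) w _ _ hwp h5K' ht00 hg1 hsp
    exact hne (hAK d g he)
  · intro R hR hcR
    obtain ⟨π, D, u, hπ, hu, hlc, hcc'⟩ := exists_dval R
    let iR : C →+* R := (algebraMap C K).codRestrict R.toSubring hcR
    have hiR : ∀ c, ((iR c : R) : K) = iK c := fun c => rfl
    let ik : C →+* IsLocalRing.ResidueField R := (IsLocalRing.residue R).comp iR
    have hunit : ∀ c : C, c ≠ 0 → IsUnit (iR c) := fun c hc => (IsUnit.mk0 c hc).map iR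
    have hc : ∀ c : C, c ≠ 0 → D.w (iK c) = 0 ∧ D.lc (iK c) = ik c := by
      intro c hc
      exact hcc' (iR c) (hunit c hc)
    have htame := tame5_gen D iK ik hc r1 r2 hr1 hr2 t x y z ht0 b hb0 m hbd hz0 hf0 hg1 hg2 hS
    have hlu : IsUnit ((5 : ℕ) : R) := by
      have := hunit 5 (by norm_num)
      rw [map_ofNat] at this
      exact_mod_cast this
    have hζ' : IsPrimitiveRoot (iR ζ) 5 := hζ.map_of_injective iR.injective
    exact unramified_of_tame R 5 (by norm_num) (iR ζ) hζ' hlu π hπ D u hu hlc t _ ht00 hg1 htame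

/-- The class of surfaces `b ≡ t - 1`. -/
theorem main5 (C : Type) [Field C] [IsAlgClosed C] [CharZero C] (V : ValuationSubring C)
    (h5 : (5 : IsLocalRing.ResidueField V) ≠ 0) (r1 r2 : C) (hr1 : r1 ^ 2 = 11 * r1 + 1)
    (hr2 : r2 = 11 - r1) (b : Polynomial V)
    (hb : b.map (IsLocalRing.residue V) = Polynomial.X - 1) (hd : 5 ∣ b.natDegree) :
    IsDelPezzoOne (RatFunc C) (sextic r1 r2 (b.map (algebraMap V C))) ∧
      IsDomain (affRing1 (RatFunc C) (sextic r1 r2 (b.map (algebraMap V C)))) ∧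
      ∀ (K : Type) [Field K]
        [Algebra (affRing1 (RatFunc C) (sextic r1 r2 (b.map (algebraMap V C)))) K]
        [Algebra C K]
        [IsFractionRing (affRing1 (RatFunc C) (sextic r1 r2 (b.map (algebraMap V C)))) K]
        [IsScalarTower C (affRing1 (RatFunc C) (sextic r1 r2 (b.map (algebraMap V C)))) K],
        HasUnramifiedOrderFive C K := by
  obtain ⟨ζ, hζ⟩ : ∃ ζ : C, IsPrimitiveRoot ζ 5 :=
    (HasEnoughRootsOfUnity.exists_primitiveRoot C 5)
  have : Fact (Nat.Prime 5) := ⟨by norm_num⟩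
  have hinj : Function.Injective (algebraMap V C) := Subtype.val_injective
  set B : Polynomial C := b.map (algebraMap V C) with hB
  have hBd : B.natDegree = b.natDegree := Polynomial.natDegree_map_eq_of_injective hinj b
  have hB0 : B.eval 0 ≠ 0 := by
    intro h
    have h1 : B.eval 0 = algebraMap V C (b.eval 0) := by
      have := Polynomial.eval_map_apply (f := algebraMap V C) (p := b) (x := 0)
      rwa [map_zero] at this
    rw [h1, map_eq_zero_iff _ hinj] at h
    have h2 : (b.map (IsLocalRing.residue V)).eval 0 = IsLocalRing.residue V (b.eval 0) := by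
      have := Polynomial.eval_map_apply (f := IsLocalRing.residue V) (p := b) (x := 0)
      rwa [map_zero] at this
    rw [hb, h, map_zero] at h2
    simp at h2
  have hdeg : b.natDegree ≠ 0 := by
    intro h0
    have h1 : (b.map (IsLocalRing.residue V)).natDegree ≤ b.natDegree :=
      Polynomial.natDegree_map_le
    rw [hb, h0, show (Polynomial.X - 1 : Polynomial (IsLocalRing.ResidueField V)) =
      Polynomial.X - Polynomial.C 1 by simp, Polynomial.natDegree_X_sub_C] at h1
    omega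
  obtain ⟨m, hm⟩ : ∃ m, B.natDegree = 5 * (m + 1) := by
    obtain ⟨n, hn⟩ := hd
    refine ⟨n - 1, ?_⟩
    rw [hBd, hn]
    congr 1
    have : n ≠ 0 := by
      rintro rfl
      exact hdeg (by rw [hn])
    omega
  have hQ := crl_domain 5 (Q5b r1 r2 B) (nonfifth_b C r1 r2 hr1 hr2 B hB0)
  let L := FractionRing (CRl 5 (Q5b r1 r2 B))
  let j : CRl 5 (Q5b r1 r2 B) →+* L := algebraMap _ _
  have hj : Function.Injective j := IsFractionRing.injective _ _
  have hAQ := aniso_Q5b C V h5 r1 r2 hr1 hr2 b hb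
  have hAL : AnisoL 5 L (j (cl 5 _ (MvPolynomial.X 0)))
      (j (cl 5 _ (gg (MvPolynomial.C r1) (MvPolynomial.X 1) (MvPolynomial.X 2)))) :=
    anisoL_frac 5 _ _ hAQ
  obtain ⟨φ, hφ, hφt, hφc', hφx, hφy, hφz⟩ :=
    embed_gen_ui C L (Q5b r1 r2 B) j hj _ (gen_eq5 C r1 r2 B)
  have hφc : ∀ c : C, φ (algebraMap C _ c) = j (cl 5 _ (MvPolynomial.C c)) := by
    intro c
    rw [← hφc' c]
    rfl
  have hdom : IsDomain (affRing1 (RatFunc C) (sextic r1 r2 B)) := hφ.isDomain φ
  refine ⟨sextic_smooth C r1 r2 hr1 hr2 B hB0, hdom, ?_⟩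
  intro K _ _ _ _ _
  exact brauer_class5_b C ζ r1 r2 hζ hr1 hr2 B hB0 m hm L j φ hφ hφt hφc hφx hφy hφz hj hAL K

end Pool.Agent.Y16.BR
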