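import Pool.Agent.Helper346.Bra.Fin0

/-!
# Polynomials with integral coefficients which are congruent to `t - 1` modulo a prime
-/

set_option autoImplicit false

namespace Pool.Agent.Y16.BR

open Pool.Agent.Helper346.Bra

theorem exists_val_p (C : Type) [Field C] [CharZero C] (p : ℕ) (hp : p.Prime) :
    ∃ V : ValuationSubring C, ((p : ℕ) : IsLocalRing.ResidueField V) = 0 := by
  let A : Subring C := (Int.castRingHom C).range
  have h2 : (p : C) ∈ A := ⟨p, by simp⟩
  let two : A := ⟨p, h2⟩
  have hI : Ideal.span {two} ≠ ⊤ := by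
    intro h
    rw [Ideal.eq_top_iff_one, Ideal.mem_span_singleton] at h
    obtain ⟨⟨a, n, hn⟩, ha⟩ := h
    have h1 : (1 : C) = p * a := congrArg Subtype.val ha
    have h3 : ((1 : ℤ) : C) = ((p * n : ℤ) : C) := by
      push_cast
      rw [h1, ← hn]
      simp
    have h4 : (1 : ℤ) = p * n := Int.cast_injective h3
    have h5 : (p : ℤ) ∣ 1 := ⟨n, h4⟩
    have h6 : p ∣ 1 := by exact_mod_cast h5
    exact hp.one_lt.ne' (Nat.dvd_one.1 h6)
  obtain ⟨V, _, hV⟩ := Ideal.image_subset_nonunits_valuationSubring (Ideal.span {two}) hI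
  refine ⟨V, ?_⟩
  have h5 : (p : C) ∈ (V.nonunits : Set C) := hV ⟨two, Ideal.subset_span rfl, rfl⟩
  rw [← V.image_maximalIdeal] at h5
  obtain ⟨r, hr, hr2⟩ := h5
  have h6 : r = ((p : ℕ) : V) := Subtype.ext hr2
  rw [← map_natCast (IsLocalRing.residue V), IsLocalRing.residue_eq_zero_iff, ← h6]
  exact hr

/-- two different primes are not both zero in a field -/
theorem other_ne_zero {k : Type*} [Field k] {p q : ℕ} (hp : p.Prime) (hq : q.Prime) (hpq : p ≠ q)
    (h : ((p : ℕ) : k) = 0) : ((q : ℕ) : k) ≠ 0 := by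
  intro h'
  have hc : IsCoprime (p : ℤ) (q : ℤ) := by
    rw [Nat.isCoprime_iff_coprime]
    exact (Nat.coprime_primes hp hq).2 hpq
  obtain ⟨u, v, huv⟩ := hc
  have := congrArg (Int.cast : ℤ → k) huv
  push_cast at this
  rw [h, h', mul_zero, mul_zero, add_zero] at this
  exact zero_ne_one this

open Polynomial in
/-- Transfer to a valuation ring. -/
theorem int_transfer (C : Type) [Field C] [CharZero C] (p : ℕ) (hp : p.Prime) (h : ℤ[X]) :
    ∃ (V : ValuationSubring C) (b : V[X]), ((p : ℕ) : IsLocalRing.ResidueField V) = 0 ∧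
      b.map (IsLocalRing.residue V) = X - 1 ∧
      b.natDegree = (X - 1 + Polynomial.C (p : ℤ) * h).natDegree ∧
      b.map (algebraMap V C) = (X - 1 + Polynomial.C (p : ℤ) * h).map (Int.castRingHom C) := by
  obtain ⟨V, hV⟩ := exists_val_p C p hp
  have hinj : Function.Injective (algebraMap V C) := Subtype.val_injective
  have hcomp : (algebraMap V C).comp (Int.castRingHom V) = Int.castRingHom C :=
    RingHom.ext_int _ _
  have hVinj : Function.Injective (Int.castRingHom V) := by
    intro a a' haa
    have := congrArg (algebraMap V C) haa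
    rw [← RingHom.comp_apply, ← RingHom.comp_apply, hcomp] at this
    exact Int.cast_injective this
  refine ⟨V, (X - 1 + Polynomial.C (p : ℤ) * h).map (Int.castRingHom V), hV, ?_, ?_, ?_⟩
  · rw [Polynomial.map_map]
    simp only [Polynomial.map_add, Polynomial.map_sub, Polynomial.map_X, Polynomial.map_one,
      Polynomial.map_mul, Polynomial.map_C]
    have : ((IsLocalRing.residue V).comp (Int.castRingHom V)) (p : ℤ) = 0 := by
      rw [map_natCast]
      exact hV
    rw [this, map_zero, zero_mul, add_zero]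
  · exact Polynomial.natDegree_map_eq_of_injective hVinj _
  · rw [Polynomial.map_map, hcomp]

end Pool.Agent.Y16.BR
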