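import Pool.Agent.Y16.BR.Five
import Pool.Agent.Y16.BR.IntV

/-!
# Statements: unramified Brauer classes on families of cubic and del Pezzo surfaces over `C(t)`
-/

set_option autoImplicit false

namespace Pool.Agent.Y16.BR

open Pool.Agent.Helper346.Bra

/-- `b` has integral coefficients, its degree is divisible by `n`, and it is congruent to `t - 1`
modulo some prime `p ≠ n`. -/
def GoodInt (n : ℕ) (b : Polynomial ℤ) : Prop :=
  n ∣ b.natDegree ∧ ∃ (p : ℕ) (h : Polynomial ℤ), p.Prime ∧ p ≠ n ∧
    b = Polynomial.X - 1 + Polynomial.C (p : ℤ) * h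

/-- `b` has coefficients in the valuation ring `V` of `C`, its degree is divisible by `n`, the
residue field has characteristic different from `n`, and `b` is congruent to `t - 1` modulo the
maximal ideal. -/
def GoodVal (n : ℕ) {C : Type} [Field C] (V : ValuationSubring C) (b : Polynomial V) : Prop :=
  n ∣ b.natDegree ∧ ((n : ℕ) : IsLocalRing.ResidueField V) ≠ 0 ∧
    b.map (IsLocalRing.residue V) = Polynomial.X - 1

/-- The coordinate ring of the affine part `x₃ = 1` of the projective surface `F = 0` over `C(t)`. -/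
def CoordRing (C : Type) [Field C] (F : MvPolynomial (Fin 4) (RatFunc C)) : Type :=
  affRing (RatFunc C) F

noncomputable instance (C : Type) [Field C] (F : MvPolynomial (Fin 4) (RatFunc C)) :
    CommRing (CoordRing C F) := inferInstanceAs (CommRing (affRing (RatFunc C) F))

noncomputable instance (C : Type) [Field C] (F : MvPolynomial (Fin 4) (RatFunc C)) :
    Algebra C (CoordRing C F) := inferInstanceAs (Algebra C (affRing (RatFunc C) F))

/-- The coordinate ring of the affine part `w = 1` of the surface `F = 0` over `C(t)` in the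
weighted projective space `P(1,1,2,3)`. -/
def CoordRing1 (C : Type) [Field C] (F : MvPolynomial (Fin 4) (RatFunc C)) : Type :=
  affRing1 (RatFunc C) F

noncomputable instance (C : Type) [Field C] (F : MvPolynomial (Fin 4) (RatFunc C)) :
    CommRing (CoordRing1 C F) := inferInstanceAs (CommRing (affRing1 (RatFunc C) F))

noncomputable instance (C : Type) [Field C] (F : MvPolynomial (Fin 4) (RatFunc C)) :
    Algebra C (CoordRing1 C F) := inferInstanceAs (Algebra C (affRing1 (RatFunc C) F))

/-- `F = 0` is a smooth cubic surface over `C(t)`, its affine part `x₃ = 1` is integral, and the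
unramified Brauer group over `C` of its function field has an element of order three. -/
def HasClassThree (C : Type) [Field C] (F : MvPolynomial (Fin 4) (RatFunc C)) : Prop :=
  IsSmoothCubic (RatFunc C) F ∧ IsDomain (CoordRing C F) ∧
    ∀ (K : Type) [Field K] [Algebra (CoordRing C F) K] [Algebra C K],
      IsFractionRing (CoordRing C F) K → IsScalarTower C (CoordRing C F) K →
        HasUnramifiedOrderThree C K

/-- `F = 0` is a del Pezzo surface of degree one over `C(t)` in `P(1,1,2,3)`, its affine part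
`w = 1` is integral, and the unramified Brauer group over `C` of its function field has an element
of order five. -/
def HasClassFive (C : Type) [Field C] (F : MvPolynomial (Fin 4) (RatFunc C)) : Prop :=
  IsDelPezzoOne (RatFunc C) F ∧ IsDomain (CoordRing1 C F) ∧
    ∀ (K : Type) [Field K] [Algebra (CoordRing1 C F) K] [Algebra C K],
      IsFractionRing (CoordRing1 C F) K → IsScalarTower C (CoordRing1 C F) K →
        HasUnramifiedOrderFive C K

theorem three_val (C : Type) [Field C] [IsAlgClosed C] [CharZero C] (V : ValuationSubring C)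
    (b : Polynomial V) (h : GoodVal 3 V b) : HasClassThree C (cubic C (b.map (algebraMap V C))) := by
  obtain ⟨hd, h3, hb⟩ := h
  obtain ⟨k1, k2, k3⟩ := main3 C V (by exact_mod_cast h3) b hb hd
  refine ⟨k1, k2, ?_⟩
  intro K i1 i2 i3 i4 i5
  exact @k3 K i1 i2 i3 i4 i5

theorem five_val (C : Type) [Field C] [IsAlgClosed C] [CharZero C] (V : ValuationSubring C)
    (r1 r2 : C) (hr1 : r1 ^ 2 = 11 * r1 + 1) (hr2 : r2 = 11 - r1)
    (b : Polynomial V) (h : GoodVal 5 V b) :
    HasClassFive C (sextic r1 r2 (b.map (algebraMap V C))) := by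
  obtain ⟨hd, h5, hb⟩ := h
  obtain ⟨k1, k2, k3⟩ := main5 C V (by exact_mod_cast h5) r1 r2 hr1 hr2 b hb hd
  refine ⟨k1, k2, ?_⟩
  intro K i1 i2 i3 i4 i5
  exact @k3 K i1 i2 i3 i4 i5

theorem int_to_val (C : Type) [Field C] [CharZero C] (n : ℕ) (hn : n.Prime) (b : Polynomial ℤ)
    (hb : GoodInt n b) : ∃ (V : ValuationSubring C) (b' : Polynomial V), GoodVal n V b' ∧
      b'.map (algebraMap V C) = b.map (Int.castRingHom C) := by
  obtain ⟨hd, p, h, hp, hpn, rfl⟩ := hb
  obtain ⟨V, b', k0, k1, k2, k3⟩ := int_transfer C p hp h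
  exact ⟨V, b', ⟨k2 ▸ hd, other_ne_zero hp hn hpn k0, k1⟩, k3⟩

theorem three_int (b : Polynomial ℤ) (hb : GoodInt 3 b) (C : Type) [Field C] [IsAlgClosed C]
    [CharZero C] : HasClassThree C (cubic C (b.map (Int.castRingHom C))) := by
  obtain ⟨V, b', h1, h2⟩ := int_to_val C 3 Nat.prime_three b hb
  rw [← h2]
  exact three_val C V b' h1

theorem five_int (b : Polynomial ℤ) (hb : GoodInt 5 b) (C : Type) [Field C] [IsAlgClosed C]
    [CharZero C] (r1 r2 : C) (hr1 : r1 ^ 2 = 11 * r1 + 1) (hr2 : r2 = 11 - r1) :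
    HasClassFive C (sextic r1 r2 (b.map (Int.castRingHom C))) := by
  obtain ⟨V, b', h1, h2⟩ := int_to_val C 5 Nat.prime_five b hb
  rw [← h2]
  exact five_val C V r1 r2 hr1 hr2 b' h1

theorem good_three : GoodInt 3 (Polynomial.X - 1 + Polynomial.C ((2 : ℕ) : ℤ) *
    Polynomial.X ^ 3) := by
  refine ⟨?_, 2, Polynomial.X ^ 3, Nat.prime_two, by norm_num, rfl⟩
  have : (Polynomial.X - 1 + Polynomial.C ((2 : ℕ) : ℤ) * Polynomial.X ^ 3 :
      Polynomial ℤ).natDegree = 3 := by
    compute_degree!
  rw [this]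

theorem good_five : GoodInt 5 (Polynomial.X - 1 + Polynomial.C ((2 : ℕ) : ℤ) *
    Polynomial.X ^ 5) := by
  refine ⟨?_, 2, Polynomial.X ^ 5, Nat.prime_two, by norm_num, rfl⟩
  have : (Polynomial.X - 1 + Polynomial.C ((2 : ℕ) : ℤ) * Polynomial.X ^ 5 :
      Polynomial ℤ).natDegree = 5 := by
    compute_degree!
  rw [this]

theorem exists_roots (C : Type) [Field C] [IsAlgClosed C] [CharZero C] :
    ∃ r1 r2 : C, r1 ^ 2 = 11 * r1 + 1 ∧ r2 = 11 - r1 := by
  obtain ⟨s, hs⟩ : ∃ s : C, s ^ 2 = 125 := IsAlgClosed.exists_pow_nat_eq 125 (by norm_num)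
  refine ⟨(11 + s) / 2, _, ?_, rfl⟩
  field_simp
  linear_combination hs

end Pool.Agent.Y16.BR
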