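import Pool.Agent.Helper346.Bra.Fin0

/-!
# Tame symbols with a general polynomial coefficient

The library of helper346 and his team treats the coefficient `t (t-1) (1-2t)²`. Here the factor
`(t-1) (1-2t)²` is replaced by an arbitrary polynomial whose degree is divisible by three and
which does not vanish at `0`.
-/

set_option autoImplicit false

open scoped TensorProduct

namespace Pool.Agent.Y16.BR

open Pool.Agent.Helper346.Bra
open Pool.Agent.Helper346.Bra.J4072

section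

variable {C K κ : Type*} [Field C] [Field K] [Field κ]

/-- a linear factor -/
theorem lin_factor [IsAlgClosed C] (D : DVal K κ) (iK : C →+* K) (ik : C →+* κ)
    (hc : ∀ c : C, c ≠ 0 → D.w (iK c) = 0 ∧ D.lc (iK c) = ik c)
    (t : K) (ht : ∀ c, t ≠ iK c) {r : C} (hr : r ≠ 0) :
    t - iK r ≠ 0 ∧ Cu (tm D t (t - iK r)) ∧ (0 < D.w t → D.w (t - iK r) = 0) ∧
      (D.w t < 0 → D.w (t - iK r) = D.w t) := by
  have ht0 : t ≠ 0 := by
    have := ht 0
    rwa [map_zero] at this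
  have h1 : t - iK r ≠ 0 := sub_ne_zero.2 (ht r)
  have hr' : iK r ≠ 0 := by rwa [map_ne_zero]
  have hm : iK (-r) ≠ 0 := by rw [map_ne_zero]; simpa using hr
  obtain ⟨wr, -⟩ := hc (-r) (by simpa using hr)
  refine ⟨h1, ?_, ?_, ?_⟩
  · have e : t - iK r = iK (-r) * (1 + iK (-r⁻¹) * (t * 1 ^ 3)) := by
      rw [map_neg, map_neg, map_inv₀]
      field_simp
      ring
    have n1 : 1 + iK (-r⁻¹) * (t * 1 ^ 3) ≠ 0 := by
      intro h
      rw [h, mul_zero] at e
      exact h1 e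
    rw [e, tm_mul_right D ht0 hm n1]
    exact (tm_const_right D iK ik hc (by simpa using hr) t).mul
      (stein' D iK ik hc (by simpa using hr) ht0 one_ne_zero n1)
  · intro h
    have := (D.add_lt (iK (-r)) t hm ht0 (by rw [wr]; exact h)).2.1
    rw [show t - iK r = iK (-r) + t by rw [map_neg]; ring, this, wr]
  · intro h
    have := (D.add_lt t (iK (-r)) ht0 hm (by rw [wr]; exact h)).2.1
    rw [show t - iK r = t + iK (-r) by rw [map_neg]; ring, this]

/-- a polynomial which does not vanish at `0` -/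
theorem poly_factor [IsAlgClosed C] (D : DVal K κ) (iK : C →+* K) (ik : C →+* κ)
    (hc : ∀ c : C, c ≠ 0 → D.w (iK c) = 0 ∧ D.lc (iK c) = ik c)
    (t : K) (ht : ∀ c, t ≠ iK c) : ∀ (n : ℕ) (b : Polynomial C), b.natDegree = n →
    b.eval 0 ≠ 0 → b.eval₂ iK t ≠ 0 ∧ Cu (tm D t (b.eval₂ iK t)) ∧
      (0 < D.w t → D.w (b.eval₂ iK t) = 0) ∧
      (D.w t < 0 → D.w (b.eval₂ iK t) = n * D.w t) := by
  have ht0 : t ≠ 0 := by
    have := ht 0
    rwa [map_zero] at this
  intro n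
  induction n with
  | zero =>
    intro b hb h0
    obtain ⟨c, rfl⟩ := Polynomial.natDegree_eq_zero.1 hb
    rw [Polynomial.eval_C] at h0
    rw [Polynomial.eval₂_C]
    obtain ⟨w1, -⟩ := hc c h0
    refine ⟨by rwa [map_ne_zero], tm_const_right D iK ik hc h0 t, fun _ => w1, fun _ => ?_⟩
    rw [w1]; simp
  | succ n ih =>
    intro b hb h0
    have hdeg : b.degree ≠ 0 := by
      intro h
      have := Polynomial.natDegree_eq_zero_iff_degree_le_zero.2 (le_of_eq h)
      omega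
    obtain ⟨r, hr⟩ := IsAlgClosed.exists_root b hdeg
    obtain ⟨q, hq⟩ := Polynomial.dvd_iff_isRoot.2 hr
    have hb0 : b ≠ 0 := by
      rintro rfl
      simp at h0
    have hq0 : q ≠ 0 := by
      rintro rfl
      rw [mul_zero] at hq
      exact hb0 hq
    have hqd : q.natDegree = n := by
      have := congrArg Polynomial.natDegree hq
      rw [Polynomial.natDegree_mul (Polynomial.X_sub_C_ne_zero r) hq0,
        Polynomial.natDegree_X_sub_C] at this
      omega
    have hr0 : r ≠ 0 := by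
      rintro rfl
      exact h0 hr
    have hqe : q.eval 0 ≠ 0 := by
      intro h
      apply h0
      rw [hq, Polynomial.eval_mul, h, mul_zero]
    obtain ⟨a1, a2, a3, a4⟩ := ih q hqd hqe
    obtain ⟨l1, l2, l3, l4⟩ := lin_factor D iK ik hc t ht hr0
    have e : b.eval₂ iK t = (t - iK r) * q.eval₂ iK t := by
      rw [hq, Polynomial.eval₂_mul, Polynomial.eval₂_sub, Polynomial.eval₂_X,
        Polynomial.eval₂_C]
    rw [e]
    refine ⟨mul_ne_zero l1 a1, ?_, fun h => ?_, fun h => ?_⟩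
    · rw [tm_mul_right D ht0 l1 a1]
      exact l2.mul a2
    · rw [D.w_mul _ _ l1 a1, l3 h, a3 h, add_zero]
    · rw [D.w_mul _ _ l1 a1, l4 h, a4 h]
      push_cast
      ring

theorem claim_gen [IsAlgClosed C]
    (D : DVal K κ) (iK : C →+* K) (ik : C →+* κ)
    (hc : ∀ c : C, c ≠ 0 → D.w (iK c) = 0 ∧ D.lc (iK c) = ik c)
    (t x y β : K) (ht : ∀ c, t ≠ iK c) (hx : x ≠ 0) (hy : y ≠ 0)
    (hxy : x ^ 3 + t * y ^ 3 ≠ 0) (hβ : β ≠ 0) (hβc : Cu (tm D t β)) :
    Cu (tm D t (-(t * β * (x ^ 3 + t * y ^ 3)))) := by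
  have ht0 : t ≠ 0 := by
    have := ht 0
    rwa [map_zero] at this
  have e1 : -(t * β * (x ^ 3 + t * y ^ 3)) =
      iK (-1) * (t * (β * ((x * (x * x)) * (1 + iK 1 * (t * (y / x) ^ 3))))) := by
    simp only [map_neg, map_one]
    field_simp
  have n1 : iK (-1) ≠ 0 := by rw [map_ne_zero]; simp
  have n4 : 1 + iK 1 * (t * (y / x) ^ 3) ≠ 0 := by
    intro h
    apply hxy
    simp only [map_one] at h
    field_simp at h
    linear_combination h
  have n5 : x * (x * x) ≠ 0 := mul_ne_zero hx (mul_ne_zero hx hx)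
  have n6 := mul_ne_zero n5 n4
  have n7 := mul_ne_zero hβ n6
  have n8 := mul_ne_zero ht0 n7
  rw [e1, tm_mul_right D ht0 n1 n8, tm_mul_right D ht0 ht0 n7, tm_mul_right D ht0 hβ n6,
    tm_mul_right D ht0 n5 n4, tm_mul_right D ht0 hx (mul_ne_zero hx hx),
    tm_mul_right D ht0 hx hx, tm_self D ht0]
  have c1 := tm_const_right D iK ik hc (c := -1) (by simp) t
  have c4 := stein' D iK ik hc (c := 1) one_ne_zero ht0 (div_ne_zero hy hx) n4
  have c5 : Cu (tm D t x * (tm D t x * tm D t x)) := ⟨tm D t x, by ring⟩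
  exact c1.mul (Cu.one.mul (hβc.mul (c5.mul c4)))

theorem tame_gen [IsAlgClosed C]
    (D : DVal K κ) (iK : C →+* K) (ik : C →+* κ)
    (hc : ∀ c : C, c ≠ 0 → D.w (iK c) = 0 ∧ D.lc (iK c) = ik c) (ω : C)
    (hω : IsPrimitiveRoot ω 3) (t x y z β : K) (ht : ∀ c, t ≠ iK c) (hx : x ≠ 0) (hy : y ≠ 0)
    (hz0 : z + 1 ≠ 0) (hz1 : z + iK ω ≠ 0) (hz2 : z + iK (ω ^ 2) ≠ 0)
    (hxy : x ^ 3 + t * y ^ 3 ≠ 0) (hβ : β ≠ 0) (hβc : Cu (tm D t β))
    (hβw : D.w t ≠ 0 → (3 : ℤ) ∣ D.w β)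
    (hS : z ^ 3 + 1 = -(t * β * (x ^ 3 + t * y ^ 3))) :
    ∃ c : κ, D.lc t ^ (D.w ((z + iK ω) / (z + iK (ω ^ 2)))) *
      D.lc ((z + iK ω) / (z + iK (ω ^ 2))) ^ (-(D.w t)) = c ^ 3 := by
  have ht0 : t ≠ 0 := by
    have := ht 0
    rwa [map_zero] at this
  have hcl := claim_gen D iK ik hc t x y β ht hx hy hxy hβ hβc
  rw [← hS] at hcl
  have hω0 : ω ≠ 0 := hω.ne_zero (by norm_num)
  have hω3 : ω ^ 3 = 1 := hω.pow_eq_one
  have hω2 : 1 + ω + ω ^ 2 = 0 := by
    have h1 : ω ≠ 1 := hω.ne_one (by norm_num)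
    have h2 : (ω - 1) * (1 + ω + ω ^ 2) = 0 := by linear_combination hω3
    rcases mul_eq_zero.1 h2 with h | h
    · exact absurd (sub_eq_zero.1 h) h1
    · exact h
  set o : K := iK ω with ho
  have ho3 : o ^ 3 = 1 := by rw [ho, ← map_pow, hω3, map_one]
  have ho2 : 1 + o + o ^ 2 = 0 := by
    rw [ho, ← map_pow, ← map_one iK, ← map_add, ← map_add, hω2, map_zero]
  have ho0 : o ≠ 0 := by rw [ho, map_ne_zero]; exact hω0
  have hoo : iK (ω ^ 2) = o ^ 2 := by rw [map_pow]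
  have hK0 : iK (ω ^ 2) ≠ 0 := by rw [map_ne_zero]; exact pow_ne_zero _ hω0
  set f := (z + o) / (z + iK (ω ^ 2)) with hf
  have hf0 : f ≠ 0 := div_ne_zero hz1 hz2
  have hgoal : Cu (tm D t f) := by
    have hprod : z ^ 3 + 1 = (z + 1) * ((z + o) * (z + iK (ω ^ 2))) := by
      rw [hoo]
      linear_combination (-z - 1) * ho3 - (z ^ 2 + z) * ho2
    have hf1 : z + o = f * (z + iK (ω ^ 2)) := by rw [hf]; field_simp
    rw [hprod, tm_mul_right D ht0 hz0 (mul_ne_zero hz1 hz2), tm_mul_right D ht0 hz1 hz2] at hcl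
    have hf2 : tm D t (z + o) = tm D t f * tm D t (z + iK (ω ^ 2)) := by
      rw [← tm_mul_right D ht0 hf0 hz2, ← hf1]
    have m0 := tm_ne D ht0 hz0
    have m1 := tm_ne D ht0 hz1
    have m2 := tm_ne D ht0 hz2
    have mf := tm_ne D ht0 hf0
    have hsum : (z + 1) + o * (z + o) + iK (ω ^ 2) * (z + iK (ω ^ 2)) = 0 := by
      rw [hoo]
      linear_combination z * ho2 + o * ho3 + ho2
    obtain ⟨wo, lo⟩ := hc ω hω0
    obtain ⟨wo2, lo2⟩ := hc (ω ^ 2) (pow_ne_zero _ hω0)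
    rw [← ho] at wo lo
    have ik0 : ik ω ≠ 0 := by rw [map_ne_zero]; exact hω0
    have w1 : D.w (o * (z + o)) = D.w (z + o) := by rw [D.w_mul _ _ ho0 hz1, wo, zero_add]
    have w2 : D.w (iK (ω ^ 2) * (z + iK (ω ^ 2))) = D.w (z + iK (ω ^ 2)) := by
      rw [D.w_mul _ _ hK0 hz2, wo2, zero_add]
    have l1 : D.lc (o * (z + o)) = ik ω * D.lc (z + o) := by rw [D.lc_mul _ _ ho0 hz1, lo]
    have l2 : D.lc (iK (ω ^ 2) * (z + iK (ω ^ 2))) = ik (ω ^ 2) * D.lc (z + iK (ω ^ 2)) := by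
      rw [D.lc_mul _ _ hK0 hz2, lo2]
    have ik3 : ik ω ^ 3 = 1 := by rw [← map_pow, hω3, map_one]
    rcases three D iK ik hc hz0 (mul_ne_zero ho0 hz1) (mul_ne_zero hK0 hz2) hsum with
      h | h | h | h
    · rw [w1, l1] at h
      obtain ⟨r, hr, hr2⟩ := rel D t (a := z + 1) (b := z + o) (v := -ik ω) h.1
        (by rw [← map_neg]; exact Cu.const ik _) (by linear_combination h.2)
      rw [hr2] at hcl
      have h5 : r * tm D t (z + o) * (tm D t (z + o) * tm D t (z + iK (ω ^ 2))) * tm D t f =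
          r * tm D t (z + o) ^ 3 := by
        rw [hf2]; ring
      have h6 : Cu (r * tm D t (z + o) * (tm D t (z + o) * tm D t (z + iK (ω ^ 2))) *
          tm D t f) := by
        rw [h5]; exact hr.mul (Cu.pow3 _)
      refine h6.cancel hcl ?_
      rw [← hr2]
      exact mul_ne_zero m0 (mul_ne_zero m1 m2)
    · rw [w2, l2] at h
      obtain ⟨r, hr, hr2⟩ := rel D t (a := z + 1) (b := z + iK (ω ^ 2)) (v := -ik (ω ^ 2)) h.1
        (by rw [← map_neg]; exact Cu.const ik _) (by linear_combination h.2)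
      have hr0 : r ≠ 0 := by
        rintro rfl
        rw [zero_mul] at hr2
        exact m0 hr2
      rw [hr2, hf2] at hcl
      have h5 : r * tm D t (z + iK (ω ^ 2)) * (tm D t f * tm D t (z + iK (ω ^ 2)) *
          tm D t (z + iK (ω ^ 2))) = (r * tm D t (z + iK (ω ^ 2)) ^ 3) * tm D t f := by ring
      rw [h5] at hcl
      exact hcl.cancel (hr.mul (Cu.pow3 _)) (mul_ne_zero hr0 (pow_ne_zero _ m2))
    · rw [w1, w2, l1, l2] at h
      obtain ⟨r, hr, hr2⟩ := rel D t (a := z + o) (b := z + iK (ω ^ 2)) (v := -ik ω) h.1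
        (by rw [← map_neg]; exact Cu.const ik _) (by
          have h7 := h.2
          rw [map_pow] at h7
          apply mul_left_cancel₀ ik0
          linear_combination h7)
      rw [hf2] at hr2
      have := mul_right_cancel₀ m2 hr2
      rw [this]
      exact hr
    · rw [w1, w2] at h
      have hwf : D.w f = 0 := by
        have h8 := D.w_mul f (z + iK (ω ^ 2)) hf0 hz2
        rw [← hf1] at h8
        omega
      have h3 : (3 : ℤ) ∣ D.w t := by
        by_contra h3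
        have hwN : D.w (z ^ 3 + 1) = 3 * D.w (z + o) := by
          rw [hprod, D.w_mul _ _ hz0 (mul_ne_zero hz1 hz2), D.w_mul _ _ hz1 hz2]
          omega
        have hy3 : t * y ^ 3 ≠ 0 := mul_ne_zero ht0 (pow_ne_zero _ hy)
        have hx3 : x ^ 3 ≠ 0 := pow_ne_zero _ hx
        have wx : D.w (x ^ 3) = 3 * D.w x := by
          have : x ^ 3 = x * (x * x) := by ring
          rw [this, D.w_mul _ _ hx (mul_ne_zero hx hx), D.w_mul _ _ hx hx]; ring
        have wy : D.w (t * y ^ 3) = D.w t + 3 * D.w y := by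
          have : t * y ^ 3 = t * (y * (y * y)) := by ring
          rw [this, D.w_mul _ _ ht0 (mul_ne_zero hy (mul_ne_zero hy hy)),
            D.w_mul _ _ hy (mul_ne_zero hy hy), D.w_mul _ _ hy hy]; ring
        have wS : D.w (x ^ 3 + t * y ^ 3) = 3 * D.w x ∨
            D.w (x ^ 3 + t * y ^ 3) = D.w t + 3 * D.w y := by
          rcases lt_trichotomy (D.w (x ^ 3)) (D.w (t * y ^ 3)) with h9 | h9 | h9
          · left; rw [(D.add_lt _ _ hx3 hy3 h9).2.1, wx]
          · exfalso; rw [wx, wy] at h9; apply h3; exact ⟨D.w x - D.w y, by linarith⟩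
          · right; rw [add_comm, (D.add_lt _ _ hy3 hx3 h9).2.1, wy]
        have n0 : D.w t ≠ 0 := by
          intro h10; apply h3; rw [h10]; exact dvd_zero 3
        obtain ⟨m, hm⟩ := hβw n0
        have hal0 : t * β ≠ 0 := mul_ne_zero ht0 hβ
        rw [hS, w_neg D (mul_ne_zero hal0 hxy), D.w_mul _ _ hal0 hxy, D.w_mul _ _ ht0 hβ] at hwN
        omega
      obtain ⟨k, hk⟩ := h3
      unfold tm
      rw [hwf, zpow_zero, one_mul, hk]
      refine ⟨D.lc f ^ (-k), ?_⟩
      rw [← zpow_natCast, ← zpow_mul]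
      congr 1
      push_cast
      ring
  exact hgoal

end

end Pool.Agent.Y16.BR
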