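import Pool.Agent.Helper346.Bra.Fin5

/-!
# Tame symbols of degree five with a general polynomial coefficient

The library of helper346 and his team treats the coefficient `(t-1) (1-2t)⁴`. Here it is replaced by
an arbitrary polynomial whose degree is divisible by five and which does not vanish at `0`.
-/

set_option autoImplicit false

open scoped TensorProduct

namespace Pool.Agent.Y16.BR

open Pool.Agent.Helper346.Bra

section

variable {C K κ : Type*} [Field C] [Field K] [Field κ]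

theorem lin5 (D : DVal K κ) (iK : C →+* K) (ik : C →+* κ)
    (hc : ∀ c : C, c ≠ 0 → D.w (iK c) = 0 ∧ D.lc (iK c) = ik c)
    (t : K) (ht : ∀ c, t ≠ iK c) {r : C} (hr : r ≠ 0) :
    t - iK r ≠ 0 ∧
      (0 < D.w t → D.w (t - iK r) = 0 ∧ D.lc (t - iK r) = ik (-r)) ∧
      (D.w t < 0 → D.w (t - iK r) = D.w t ∧ D.lc (t - iK r) = D.lc t) ∧
      (D.w t = 0 → (∀ c, D.lc t ≠ ik c) → D.w (t - iK r) = 0 ∧
        D.lc (t - iK r) = D.lc t - ik r) := by
  have ht0 : t ≠ 0 := by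
    have := ht 0
    rwa [map_zero] at this
  have h1 : t - iK r ≠ 0 := sub_ne_zero.2 (ht r)
  have hm : iK (-r) ≠ 0 := by rw [map_ne_zero]; simpa using hr
  obtain ⟨wr, lr⟩ := hc (-r) (by simpa using hr)
  refine ⟨h1, ?_, ?_, ?_⟩
  · intro h
    obtain ⟨-, u, v⟩ := D.add_lt (iK (-r)) t hm ht0 (by rw [wr]; exact h)
    rw [show t - iK r = iK (-r) + t by rw [map_neg]; ring, u, v, wr, lr]
    exact ⟨rfl, rfl⟩
  · intro h
    obtain ⟨-, u, v⟩ := D.add_lt t (iK (-r)) ht0 hm (by rw [wr]; exact h)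
    rw [show t - iK r = t + iK (-r) by rw [map_neg]; ring, u, v]
    exact ⟨rfl, rfl⟩
  · intro h hn
    obtain ⟨-, u, v⟩ := D.add_eq t (iK (-r)) ht0 hm (by rw [wr, h]) (by
      rw [lr]
      intro h2
      apply hn r
      rw [map_neg] at h2
      linear_combination h2)
    rw [show t - iK r = t + iK (-r) by rw [map_neg]; ring, u, v, lr, h, map_neg]
    exact ⟨rfl, by ring⟩

theorem poly5 [IsAlgClosed C] (D : DVal K κ) (iK : C →+* K) (ik : C →+* κ)
    (hc : ∀ c : C, c ≠ 0 → D.w (iK c) = 0 ∧ D.lc (iK c) = ik c)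
    (t : K) (ht : ∀ c, t ≠ iK c) : ∀ (n : ℕ) (b : Polynomial C), b.natDegree = n →
    b.eval 0 ≠ 0 → b.eval₂ iK t ≠ 0 ∧
      (0 < D.w t → D.w (b.eval₂ iK t) = 0 ∧ D.lc (b.eval₂ iK t) = ik (b.eval 0)) ∧
      (D.w t < 0 → D.w (b.eval₂ iK t) = n * D.w t ∧
        D.lc (b.eval₂ iK t) = ik b.leadingCoeff * D.lc t ^ n) ∧
      (D.w t = 0 → (∀ c, D.lc t ≠ ik c) → D.w (b.eval₂ iK t) = 0 ∧
        D.lc (b.eval₂ iK t) = b.eval₂ ik (D.lc t)) := by
  intro n
  induction n with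
  | zero =>
    intro b hb h0
    obtain ⟨c, rfl⟩ := Polynomial.natDegree_eq_zero.1 hb
    rw [Polynomial.eval_C] at h0
    obtain ⟨w1, l1⟩ := hc c h0
    rw [Polynomial.eval₂_C, Polynomial.eval_C, Polynomial.leadingCoeff_C]
    refine ⟨by rwa [map_ne_zero], fun _ => ⟨w1, l1⟩, fun _ => ⟨?_, ?_⟩, fun _ _ => ⟨w1, ?_⟩⟩
    · rw [w1]; simp
    · rw [l1]; simp
    · rw [l1, Polynomial.eval₂_C]
  | succ n ih =>
    intro b hb h0
    have hdeg : b.degree ≠ 0 := by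
      intro h
      have := Polynomial.natDegree_eq_zero_iff_degree_le_zero.2 (le_of_eq h)
      omega
    obtain ⟨r, hr⟩ := IsAlgClosed.exists_root b hdeg
    obtain ⟨q, hq⟩ := Polynomial.dvd_iff_isRoot.2 hr
    have hb0 : b ≠ 0 := by
      rintro rfl
      simp at h0
    have hq0 : q ≠ 0 := by
      rintro rfl
      rw [mul_zero] at hq
      exact hb0 hq
    have hqd : q.natDegree = n := by
      have := congrArg Polynomial.natDegree hq
      rw [Polynomial.natDegree_mul (Polynomial.X_sub_C_ne_zero r) hq0,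
        Polynomial.natDegree_X_sub_C] at this
      omega
    have hr0 : r ≠ 0 := by
      rintro rfl
      exact h0 hr
    have hqe : q.eval 0 ≠ 0 := by
      intro h
      apply h0
      rw [hq, Polynomial.eval_mul, h, mul_zero]
    obtain ⟨a1, a2, a3, a4⟩ := ih q hqd hqe
    obtain ⟨l1, l2, l3, l4⟩ := lin5 D iK ik hc t ht hr0
    have e : b.eval₂ iK t = (t - iK r) * q.eval₂ iK t := by
      rw [hq, Polynomial.eval₂_mul, Polynomial.eval₂_sub, Polynomial.eval₂_X,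
        Polynomial.eval₂_C]
    rw [e]
    refine ⟨mul_ne_zero l1 a1, fun h => ?_, fun h => ?_, fun h hn => ?_⟩
    · rw [D.w_mul _ _ l1 a1, D.lc_mul _ _ l1 a1, (l2 h).1, (l2 h).2, (a2 h).1, (a2 h).2]
      refine ⟨by ring, ?_⟩
      rw [← map_mul, hq, Polynomial.eval_mul, Polynomial.eval_sub, Polynomial.eval_X,
        Polynomial.eval_C, zero_sub]
    · rw [D.w_mul _ _ l1 a1, D.lc_mul _ _ l1 a1, (l3 h).1, (l3 h).2, (a3 h).1, (a3 h).2]
      have hlead : b.leadingCoeff = q.leadingCoeff := by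
        rw [hq, Polynomial.leadingCoeff_mul, Polynomial.leadingCoeff_X_sub_C, one_mul]
      rw [hlead]
      refine ⟨by push_cast; ring, by ring⟩
    · rw [D.w_mul _ _ l1 a1, D.lc_mul _ _ l1 a1, (l4 h hn).1, (l4 h hn).2, (a4 h hn).1,
        (a4 h hn).2]
      refine ⟨by ring, ?_⟩
      rw [hq, Polynomial.eval₂_mul, Polynomial.eval₂_sub, Polynomial.eval₂_X,
        Polynomial.eval₂_C]

theorem tame5_gen [IsAlgClosed C] [CharZero C]
    (D : DVal K κ) (iK : C →+* K) (ik : C →+* κ)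
    (hc : ∀ c : C, c ≠ 0 → D.w (iK c) = 0 ∧ D.lc (iK c) = ik c) (r1 r2 : C)
    (h1 : r1 ^ 2 = 11 * r1 + 1) (h2 : r2 = 11 - r1) (t x y z : K) (ht : ∀ c, t ≠ iK c)
    (b : Polynomial C) (hb0 : b.eval 0 ≠ 0) (m : ℕ) (hbd : b.natDegree = 5 * (m + 1))
    (hz : z ≠ 0) (hf : ff x y ≠ 0) (hg1 : gg (iK r1) x y ≠ 0) (hg2 : gg (iK r2) x y ≠ 0)
    (hS : z ^ 5 = iK r2 * b.eval₂ iK t * gg (iK r1) x y -
      iK r1 * t * gg (iK r2) x y) :
    ∃ c : κ, D.lc t ^ (D.w (gg (iK r1) x y)) *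
      D.lc (gg (iK r1) x y) ^ (-(D.w t)) = c ^ 5 := by
  -- constants
  have hr12 : r1 * r2 = -1 := by rw [h2]; linear_combination -h1
  have hr1 : r1 ≠ 0 := by rintro rfl; simp at hr12
  have hr2 : r2 ≠ 0 := by rintro rfl; simp at hr12
  obtain ⟨δ, hδd⟩ : ∃ δ : C, δ = r1 - r2 := ⟨_, rfl⟩
  have hδ2 : δ ^ 2 = 125 := by rw [hδd, h2]; linear_combination 4 * h1
  have hδ : δ ≠ 0 := by
    rintro rfl
    norm_num at hδ2
  have hg : gg (iK r2) x y = gg (iK r1) x y + iK δ * ff x y := by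
    rw [gg_add (iK r1) (iK r2), hδd, map_sub]
  have ht0 : t ≠ 0 := by have := ht 0; rwa [map_zero] at this
  have hlt := D.lc_ne t ht0
  have hlg1 := D.lc_ne _ hg1
  have hir1 : iK r1 ≠ 0 := (map_ne_zero iK).2 hr1
  have hir2 : iK r2 ≠ 0 := (map_ne_zero iK).2 hr2
  have hwr1 := hc r1 hr1
  have hwr2 := hc r2 hr2
  have hneg : D.w (-1) = 0 ∧ D.lc (-1) = -1 := by
    have := hc (-1) (by simp)
    simpa using this
  have hn1 : (-1 : K) ≠ 0 := by simp
  have hw1 := D.w_one'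
  have hl1 := D.lc_one'
  obtain ⟨β0, β1, β2, β3⟩ := poly5 D iK ik hc t ht _ b rfl hb0
  have hlead : b.leadingCoeff ≠ 0 := by
    rw [Polynomial.leadingCoeff_ne_zero]
    rintro rfl
    simp at hb0
  suffices h : P5 (D.lc t ^ (D.w (gg (iK r1) x y)) * D.lc (gg (iK r1) x y) ^ (-(D.w t))) by
    exact h
  set g1 := gg (iK r1) x y with hg1d
  set f := ff x y with hfd
  set β := b.eval₂ iK t with hβd
  rcases lt_trichotomy (D.w t) 0 with hn | hn | hn
  · -- negative valuation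
    obtain ⟨a1, a2⟩ := β2 hn
    rw [hbd] at a1 a2
    have ht5' : t ^ (5 * (m + 1)) ≠ 0 := pow_ne_zero _ ht0
    have ht5 : (t ^ (5 * (m + 1)))⁻¹ ≠ 0 := inv_ne_zero ht5'
    have w5 : D.w (t ^ (5 * (m + 1)))⁻¹ = -(((5 * (m + 1) : ℕ) : ℤ) * D.w t) := by
      rw [D.w_inv' ht5', D.w_pow' ht0]
    have l5 : D.lc (t ^ (5 * (m + 1)))⁻¹ = (D.lc t ^ (5 * (m + 1)))⁻¹ := by
      rw [D.lc_inv' ht5', D.lc_pow' ht0]
    have hrt : iK r1 * t ≠ 0 := mul_ne_zero hir1 ht0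
    have hwrt : D.w (iK r1 * t) = D.w t := by rw [D.w_mul _ _ hir1 ht0, hwr1.1, zero_add]
    have hlrt : D.lc (iK r1 * t) = ik r1 * D.lc t := by rw [D.lc_mul _ _ hir1 ht0, hwr1.2]
    have hwA : D.w (iK r1 * t * (t ^ (5 * (m + 1)))⁻¹) = (-4 - 5 * (m : ℤ)) * D.w t := by
      rw [D.w_mul _ _ hrt ht5, hwrt, w5]; push_cast; ring
    have hlA : D.lc (iK r1 * t * (t ^ (5 * (m + 1)))⁻¹) =
        ik r1 * D.lc t * (D.lc t ^ (5 * (m + 1)))⁻¹ := by
      rw [D.lc_mul _ _ hrt ht5, hlrt, l5]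
    have hb3 : iK r2 * β ≠ 0 := mul_ne_zero hir2 β0
    have hwB : D.w (iK r2 * β * (t ^ (5 * (m + 1)))⁻¹) = 0 := by
      rw [D.w_mul _ _ hb3 ht5, D.w_mul _ _ hir2 β0, w5, a1, hwr2.1]; ring
    have hlB : D.lc (iK r2 * β * (t ^ (5 * (m + 1)))⁻¹) = ik (r2 * b.leadingCoeff) := by
      rw [D.lc_mul _ _ hb3 ht5, D.lc_mul _ _ hir2 β0, l5, a2, hwr2.2, map_mul]
      have : D.lc t ^ (5 * (m + 1)) ≠ 0 := pow_ne_zero _ hlt
      field_simp
    have hwpos : 0 < D.w (iK r1 * t * (t ^ (5 * (m + 1)))⁻¹) := by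
      rw [hwA]
      have : (-4 - 5 * (m : ℤ)) < 0 := by
        have : (0 : ℤ) ≤ m := Int.natCast_nonneg m
        linarith
      exact mul_pos_of_neg_of_neg this hn
    have main := tame5_pos D iK ik hc r1 δ h1 hδ x y (gg (iK r2) x y)
      (iK r1 * t * (t ^ (5 * (m + 1)))⁻¹)
      (iK r2 * β * (t ^ (5 * (m + 1)))⁻¹) (z * (t ^ (m + 1))⁻¹)
      (mul_ne_zero hz (inv_ne_zero (pow_ne_zero _ ht0)))
      hf hg1 hg2 hg (mul_ne_zero hrt ht5) (mul_ne_zero hb3 ht5) hwpos hwB (r2 * b.leadingCoeff)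
      (mul_ne_zero hr2 hlead) hlB (by
        rw [mul_pow, hS, inv_pow, ← pow_mul, ← hg1d, mul_comm (m + 1) 5]; ring)
    rw [← hg1d, hwA, hlA] at main
    have key : D.lc t ^ (D.w g1) * D.lc g1 ^ (-(D.w t)) =
        ((ik r1 * D.lc t * (D.lc t ^ (5 * (m + 1)))⁻¹) ^ (D.w g1) *
          D.lc g1 ^ (-((-4 - 5 * (m : ℤ)) * D.w t))) *
          ((ik r1)⁻¹ ^ (D.w g1)) * (D.lc t ^ (5 * (((m : ℤ) + 1) * D.w g1))) *
          (D.lc g1 ^ (5 * (-((m : ℤ) + 1) * D.w t))) := by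
      have hik : ik r1 ≠ 0 := (map_ne_zero ik).2 hr1
      have q1 : (ik r1 * D.lc t * (D.lc t ^ (5 * (m + 1)))⁻¹) ^ (D.w g1) =
          ik r1 ^ (D.w g1) * D.lc t ^ (D.w g1) *
            (D.lc t ^ (5 * (((m : ℤ) + 1) * D.w g1)))⁻¹ := by
        rw [mul_zpow, mul_zpow, inv_zpow]
        congr 2
        rw [← zpow_natCast, ← zpow_mul]
        congr 1
        push_cast
        ring
      have q2 : D.lc g1 ^ (-(D.w t)) = D.lc g1 ^ (-((-4 - 5 * (m : ℤ)) * D.w t)) *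
          D.lc g1 ^ (5 * (-((m : ℤ) + 1) * D.w t)) := by
        rw [← zpow_add₀ hlg1]; congr 1; ring
      rw [q1, q2, inv_zpow]
      have n1 : ik r1 ^ (D.w g1) ≠ 0 := zpow_ne_zero _ hik
      have n2 : D.lc t ^ (5 * (((m : ℤ) + 1) * D.w g1)) ≠ 0 := zpow_ne_zero _ hlt
      generalize ik r1 ^ (D.w g1) = u1 at n1 ⊢
      generalize D.lc t ^ (5 * (((m : ℤ) + 1) * D.w g1)) = u2 at n2 ⊢
      generalize D.lc t ^ (D.w g1) = u3
      generalize D.lc g1 ^ (-((-4 - 5 * (m : ℤ)) * D.w t)) = u4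
      generalize D.lc g1 ^ (5 * (-((m : ℤ) + 1) * D.w t)) = u5
      field_simp
    rw [key]
    exact ((main.mul ((P5.const ik r1).inv.zpow _)).mul (P5.of_dvd ⟨_, rfl⟩)).mul
      (P5.of_dvd ⟨_, rfl⟩)
  · -- zero valuation
    rw [hn, neg_zero, zpow_zero, mul_one]
    by_cases hconst : ∃ c, D.lc t = ik c
    · obtain ⟨c, hcc⟩ := hconst
      rw [hcc]
      exact (P5.const ik c).zpow _
    push Not at hconst
    by_cases h5 : (5 : ℤ) ∣ D.w g1
    · exact P5.of_dvd h5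
    obtain ⟨a1, a2⟩ := β3 hn hconst
    obtain ⟨A, hAd⟩ : ∃ A : K, A = iK r1 * t := ⟨_, rfl⟩
    obtain ⟨B, hBd⟩ : ∃ B : K, B = iK r2 * β := ⟨_, rfl⟩
    have hA : A ≠ 0 := by rw [hAd]; exact mul_ne_zero hir1 ht0
    have hB : B ≠ 0 := by rw [hBd]; exact mul_ne_zero hir2 β0
    have hwA : D.w A = 0 := by rw [hAd, D.w_mul _ _ hir1 ht0, hwr1.1, hn]; rfl
    have hlA : D.lc A = ik r1 * D.lc t := by rw [hAd, D.lc_mul _ _ hir1 ht0, hwr1.2]
    have hwB : D.w B = 0 := by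
      rw [hBd, D.w_mul _ _ hir2 β0, a1, hwr2.1]
      norm_num
    have hlB : D.lc B = ik r2 * b.eval₂ ik (D.lc t) := by
      rw [hBd, D.lc_mul _ _ hir2 β0, a2, hwr2.2]
    have hne : ∀ ρ : C, D.lc B ≠ ik ρ * D.lc A := by
      intro ρ hρ
      let P : Polynomial C := Polynomial.C r2 * b -
        Polynomial.C ρ * (Polynomial.C r1 * Polynomial.X)
      have hP : P ≠ 0 := by
        intro h
        have : P.eval 0 = 0 := by rw [h]; simp
        simp [P] at this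
        rcases this with h' | h'
        · exact hr2 h'
        · exact hb0 h'
      apply not_root ik (D.lc t) hconst P hP
      simp only [P, Polynomial.eval₂_sub, Polynomial.eval₂_mul, Polynomial.eval₂_C,
        Polynomial.eval₂_X]
      rw [← hlB, ← hlA, hρ]; ring
    set g2 := gg (iK r2) x y with hg2d
    have hlg2 := D.lc_ne g2 hg2
    have hzw : D.w (z ^ 5) = 5 * D.w z := by rw [D.w_pow' hz]; norm_num
    have hzl : D.lc (z ^ 5) = D.lc z ^ 5 := D.lc_pow' hz 5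
    have hBgn : B * g1 ≠ 0 := mul_ne_zero hB hg1
    have hAgn : A * g2 ≠ 0 := mul_ne_zero hA hg2
    have hAgn' : -(A * g2) ≠ 0 := neg_ne_zero.2 hAgn
    have wneg : ∀ a : K, a ≠ 0 → D.w (-a) = D.w a ∧ D.lc (-a) = -D.lc a := by
      intro a ha
      have e1 := D.w_mul (-1) a hn1 ha
      have e2 := D.lc_mul (-1) a hn1 ha
      rw [neg_one_mul] at e1 e2
      rw [e1, e2, hneg.1, hneg.2]
      constructor <;> ring
    have hBg : D.w (B * g1) = D.w g1 := by rw [D.w_mul _ _ hB hg1, hwB, zero_add]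
    have hBgl : D.lc (B * g1) = D.lc B * D.lc g1 := D.lc_mul _ _ hB hg1
    have hAg : D.w (-(A * g2)) = D.w g2 := by
      rw [(wneg _ hAgn).1, D.w_mul _ _ hA hg2, hwA, zero_add]
    have hAgl : D.lc (-(A * g2)) = -(D.lc A * D.lc g2) := by
      rw [(wneg _ hAgn).2, D.lc_mul _ _ hA hg2]
    have hS' : z ^ 5 = B * g1 + -(A * g2) := by rw [hS, hAd, hBd]; ring
    -- (i)
    have claim : ∀ ρ : C, D.w g2 = D.w g1 → D.lc g2 = ik ρ * D.lc g1 → False := by
      intro ρ hw hl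
      obtain ⟨-, u, -⟩ := D.add_eq (B * g1) (-(A * g2)) hBgn hAgn' (by rw [hBg, hAg, hw]) (by
        rw [hBgl, hAgl, hl]
        intro h
        have h' : (D.lc B - ik ρ * D.lc A) * D.lc g1 = 0 := by linear_combination h
        rcases mul_eq_zero.1 h' with h' | h'
        · exact hne ρ (sub_eq_zero.1 h')
        · exact hlg1 h')
      rw [← hS', hzw, hBg] at u
      exact h5 ⟨_, u.symm⟩
    have hδK : iK δ ≠ 0 := (map_ne_zero iK).2 hδ
    have hδw := hc δ hδ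
    have hδf : D.w (iK δ * f) = D.w f := by rw [D.w_mul _ _ hδK hf, hδw.1, zero_add]
    have hδfl : D.lc (iK δ * f) = ik δ * D.lc f := by rw [D.lc_mul _ _ hδK hf, hδw.2]
    have hδfn : iK δ * f ≠ 0 := mul_ne_zero hδK hf
    rcases lt_trichotomy (D.w g1) (D.w f) with hlt1 | heq1 | hgt1
    · exfalso
      obtain ⟨-, u, v⟩ := D.add_lt g1 (iK δ * f) hg1 hδfn (by rw [hδf]; exact hlt1)
      rw [← hg] at u v
      exact claim 1 u (by rw [v, map_one, one_mul])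
    · exfalso
      by_cases hs : D.lc g1 + D.lc (iK δ * f) = 0
      · have hgt := D.add_gt g1 (iK δ * f) hg1 hδfn (by rw [← hg]; exact hg2)
          (by rw [hδf]; exact heq1) hs
        rw [← hg] at hgt
        obtain ⟨-, u, -⟩ := D.add_lt (B * g1) (-(A * g2)) hBgn hAgn' (by
          rw [hBg, hAg]; exact hgt)
        rw [← hS', hzw, hBg] at u
        exact h5 ⟨_, u.symm⟩
      · obtain ⟨-, u, v⟩ := D.add_eq g1 (iK δ * f) hg1 hδfn (by rw [hδf]; exact heq1) hs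
        rw [← hg] at u v
        rcases star2 D iK ik hc r1 r2 hr1 hr2 x y hf hg1 hg2 heq1 (u.trans heq1) with h | ⟨q1, q2⟩
        · rw [← hfd, ← heq1] at h
          exact h5 h
        · apply claim (r2 / r1) u
          rw [← hg1d, ← hfd] at q1
          rw [← hg2d, ← hfd] at q2
          rw [q1, q2, map_div₀]
          have hik : ik r1 ≠ 0 := (map_ne_zero ik).2 hr1
          field_simp
    · obtain ⟨m', c, hm, hcf⟩ := star5 D iK ik hc r1 h1 x y hf hg1 hgt1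
      rw [← hfd] at hm hcf
      have hcn : c ≠ 0 := by
        rintro rfl
        apply D.lc_ne f hf
        rw [hcf]; simp
      obtain ⟨-, u, v⟩ := D.add_lt (iK δ * f) g1 hδfn hg1 (by rw [hδf]; exact hgt1)
      rw [add_comm, ← hg, hδf] at u
      rw [add_comm, ← hg, hδfl, hcf] at v
      obtain ⟨-, -, u2⟩ := D.add_lt (-(A * g2)) (B * g1) hAgn' hBgn (by
        rw [hAg, hBg, u]; exact hgt1)
      rw [add_comm, ← hS', hzl, hAgl, v, hlA] at u2
      have hik : ik r1 ≠ 0 := (map_ne_zero ik).2 hr1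
      have hikδ : ik δ ≠ 0 := (map_ne_zero ik).2 hδ
      have : D.lc t = ((-1) ^ 5 * D.lc z ^ 5) * ((ik r1) * (ik δ) * c ^ 5)⁻¹ := by
        rw [u2]; field_simp
      rw [this]
      exact (P5.mul (P5.mul ⟨_, rfl⟩ ⟨_, rfl⟩)
        ((P5.mul (P5.mul (P5.const ik r1) (P5.const ik δ)) ⟨_, rfl⟩)).inv).zpow _
  · -- positive valuation
    obtain ⟨a1, a2⟩ := β1 hn
    have hrt : iK r1 * t ≠ 0 := mul_ne_zero hir1 ht0
    have hwrt : D.w (iK r1 * t) = D.w t := by rw [D.w_mul _ _ hir1 ht0, hwr1.1, zero_add]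
    have hlrt : D.lc (iK r1 * t) = ik r1 * D.lc t := by rw [D.lc_mul _ _ hir1 ht0, hwr1.2]
    have hb3 : iK r2 * β ≠ 0 := mul_ne_zero hir2 β0
    have hwB : D.w (iK r2 * β) = 0 := by
      rw [D.w_mul _ _ hir2 β0, a1, hwr2.1]
      norm_num
    have hlB : D.lc (iK r2 * β) = ik (r2 * b.eval 0) := by
      rw [D.lc_mul _ _ hir2 β0, a2, hwr2.2, map_mul]
    have main := tame5_pos D iK ik hc r1 δ h1 hδ x y (gg (iK r2) x y) (iK r1 * t)
      (iK r2 * β) z hz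
      hf hg1 hg2 hg hrt hb3 (by rw [hwrt]; exact hn) hwB (r2 * b.eval 0) (mul_ne_zero hr2 hb0)
      hlB hS
    rw [← hg1d, hwrt, hlrt] at main
    have hik : ik r1 ≠ 0 := (map_ne_zero ik).2 hr1
    have key : D.lc t ^ (D.w g1) * D.lc g1 ^ (-(D.w t)) =
        ((ik r1 * D.lc t) ^ (D.w g1) * D.lc g1 ^ (-(D.w t))) * ((ik r1)⁻¹ ^ (D.w g1)) := by
      rw [mul_zpow, inv_zpow]
      have n1 : ik r1 ^ (D.w g1) ≠ 0 := zpow_ne_zero _ hik
      field_simp
    rw [key]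
    exact main.mul ((P5.const ik r1).inv.zpow _)

end

end Pool.Agent.Y16.BR
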